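import Pool.Agent.D0H72.AP.Ang

/-! The Riemann sphere: homeomorphisms of the plane, the inversion, and the group which they
generate -/

set_option autoImplicit false

open Set Filter Topology Metric Function
open scoped OnePoint

noncomputable section

namespace Pool.Agent.D0H72.SC

open Pool.Agent.Helper984_CP Pool.Agent.D0H72.AP

/-- the Riemann sphere -/
abbrev X : Type := OnePoint ℂ

/-- a homeomorphism of the plane as a homeomorphism of the sphere -/
def io : (ℂ ≃ₜ ℂ) →* (X ≃ₜ X) where
  toFun f := f.onePointCongr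
  map_one' := by
    ext x
    induction x using OnePoint.rec <;> rfl
  map_mul' f g := by
    ext x
    induction x using OnePoint.rec <;> rfl

@[simp] theorem io_coe (f : ℂ ≃ₜ ℂ) (z : ℂ) : io f (z : X) = ((f z : ℂ) : X) := rfl

@[simp] theorem io_infty (f : ℂ ≃ₜ ℂ) : io f ∞ = ∞ := rfl

/-- the inversion as a function -/
def invF (x : X) : X := x.elim ((0 : ℂ) : X) (fun z => open Classical in
  if z = 0 then ∞ else ((z⁻¹ : ℂ) : X))

theorem invF_infty : invF ∞ = ((0 : ℂ) : X) := rfl

theorem invF_zero : invF ((0 : ℂ) : X) = ∞ := by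
  unfold invF
  rw [OnePoint.elim_some]
  simp

theorem invF_coe {z : ℂ} (h : z ≠ 0) : invF (z : X) = ((z⁻¹ : ℂ) : X) := by
  unfold invF
  rw [OnePoint.elim_some, if_neg h]

theorem invF_invF (x : X) : invF (invF x) = x := by
  induction x using OnePoint.rec with
  | infty => rw [invF_infty, invF_zero]
  | coe z =>
    by_cases hz : z = 0
    · rw [hz, invF_zero, invF_infty]
    · rw [invF_coe hz, invF_coe (inv_ne_zero hz), inv_inv]

theorem continuous_invF : Continuous invF := by
  rw [continuous_iff_continuousAt]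
  intro x
  induction x using OnePoint.rec with
  | infty =>
    rw [OnePoint.continuousAt_infty', invF_infty, coclosedCompact_eq_cocompact]
    have h1 : Tendsto (fun z : ℂ => z⁻¹) (cocompact ℂ) (𝓝 0) := by
      have h4 := tendsto_inv₀_cobounded (α := ℂ)
      rwa [Metric.cobounded_eq_cocompact] at h4
    refine ((OnePoint.continuous_coe.tendsto (0 : ℂ)).comp h1).congr' ?_
    have h5 : ∀ᶠ z in cocompact ℂ, z ∈ ({0} : Set ℂ)ᶜ := isCompact_singleton.compl_mem_cocompact
    filter_upwards [h5] with z hz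
    simp only [Function.comp]
    rw [invF_coe hz]
  | coe z =>
    rw [OnePoint.continuousAt_coe]
    by_cases hz : z = 0
    · subst hz
      rw [continuousAt_iff_punctured_nhds, Function.comp_apply, invF_zero]
      have h1 : Tendsto (fun w : ℂ => w⁻¹) (𝓝[≠] 0) (Bornology.cobounded ℂ) :=
        tendsto_inv₀_nhdsNE_zero
      rw [Metric.cobounded_eq_cocompact, ← coclosedCompact_eq_cocompact] at h1
      refine (OnePoint.tendsto_coe_infty.comp h1).congr' ?_
      filter_upwards [self_mem_nhdsWithin] with w hw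
      simp only [Function.comp]
      rw [invF_coe hw]
    · have h1 : ContinuousAt (fun w : ℂ => w⁻¹) z := continuousAt_inv₀ hz
      have h2 : ContinuousAt (fun w : ℂ => ((w⁻¹ : ℂ) : X)) z :=
        OnePoint.continuous_coe.continuousAt.comp h1
      refine h2.congr ?_
      filter_upwards [isOpen_compl_singleton.mem_nhds hz] with w hw
      simp only [Function.comp]
      rw [invF_coe hw]

/-- the inversion `z ↦ 1 / z` -/
def J : X ≃ₜ X where
  toFun := invF
  invFun := invF
  left_inv := invF_invF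
  right_inv := invF_invF
  continuous_toFun := continuous_invF
  continuous_invFun := continuous_invF

@[simp] theorem J_infty : J ∞ = ((0 : ℂ) : X) := rfl
@[simp] theorem J_zero : J ((0 : ℂ) : X) = ∞ := invF_zero
theorem J_coe {z : ℂ} (h : z ≠ 0) : J (z : X) = ((z⁻¹ : ℂ) : X) := invF_coe h
@[simp] theorem J_J (x : X) : J (J x) = x := invF_invF x
theorem J_mul_J : J * J = 1 := by
  ext x
  exact J_J x
theorem J_inv : J⁻¹ = J := inv_eq_of_mul_eq_one_left J_mul_J

/-- restriction of a homeomorphism which fixes infinity -/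
theorem exists_io {g : X ≃ₜ X} (h : g ∞ = ∞) : ∃ f : ℂ ≃ₜ ℂ, io f = g := by
  have key : ∀ g : X ≃ₜ X, g ∞ = ∞ → ∃ f : ℂ → ℂ, Continuous f ∧ ∀ z : ℂ, ((f z : ℂ) : X) = g z := by
    intro g h
    have h1 : ∀ z : ℂ, ∃ w : ℂ, (w : X) = g z := by
      intro z
      have h2 : g z ≠ ∞ := by
        intro h3
        rw [← h] at h3
        exact OnePoint.coe_ne_infty z (g.injective h3)
      obtain ⟨w, hw⟩ := OnePoint.ne_infty_iff_exists.1 h2
      exact ⟨w, hw⟩
    choose f hf using h1
    refine ⟨f, ?_, hf⟩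
    rw [OnePoint.isOpenEmbedding_coe.isInducing.continuous_iff]
    have h3 : ((↑) : ℂ → X) ∘ f = g ∘ ((↑) : ℂ → X) := funext hf
    rw [h3]
    exact g.continuous.comp OnePoint.continuous_coe
  obtain ⟨f, hf1, hf2⟩ := key g h
  obtain ⟨fi, hi1, hi2⟩ := key g.symm (by rw [Homeomorph.symm_apply_eq, h])
  refine ⟨⟨⟨f, fi, fun z => ?_, fun z => ?_⟩, hf1, hi1⟩, ?_⟩
  · apply OnePoint.coe_injective
    rw [hi2, hf2, g.symm_apply_apply]
  · apply OnePoint.coe_injective
    rw [hf2, hi2, g.apply_symm_apply]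
  · ext x
    induction x using OnePoint.rec with
    | infty => rw [io_infty, h]
    | coe z => exact hf2 z

/-- a homeomorphism of the plane isotopic to the identity -/
def Iso (f : ℂ ≃ₜ ℂ) : Prop := IsoId (toC f)

theorem Iso.op {f : ℂ ≃ₜ ℂ} (h : Iso f) : OP f := OP.of_isoId h

theorem Iso.aff (c d : ℂ) (hc : c ≠ 0) : Iso (aff c d hc) := isoId_affine hc

theorem Iso.mul {f g : ℂ ≃ₜ ℂ} (hf : Iso f) (hg : Iso g) : Iso (f * g) :=
  IsoId.comp hf hg

/-- the group generated by the isotopically trivial plane homeomorphisms and the inversion -/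
def Gr : Subgroup (X ≃ₜ X) := Subgroup.closure ({g | ∃ f, Iso f ∧ g = io f} ∪ {J})

theorem io_mem {f : ℂ ≃ₜ ℂ} (h : Iso f) : io f ∈ Gr :=
  Subgroup.subset_closure (Or.inl ⟨f, h, rfl⟩)

theorem J_mem : J ∈ Gr := Subgroup.subset_closure (Or.inr rfl)

/-- conjugation by the inversion -/
theorem Iso.inv0 {f : ℂ ≃ₜ ℂ} (h : Iso f) (h0 : f 0 = 0) :
    ∃ g : ℂ ≃ₜ ℂ, Iso g ∧ g 0 = 0 ∧ io g = J * io f * J := by
  have h1 : (J * io f * J) ∞ = ∞ := by
    change J (io f (J ∞)) = ∞
    rw [J_infty, io_coe, h0, J_zero]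
  obtain ⟨g, hg⟩ := exists_io h1
  have hgz : ∀ z, g z = (f z⁻¹)⁻¹ := by
    intro z
    apply OnePoint.coe_injective
    have h2 : ((g z : ℂ) : X) = J (io f (J z)) := by
      rw [← io_coe, hg]
      rfl
    rw [h2]
    by_cases hz : z = 0
    · rw [hz, J_zero, io_infty, J_infty, inv_zero, h0, inv_zero]
    · rw [J_coe hz, io_coe, J_coe]
      intro h3
      rw [← h0] at h3
      exact inv_ne_zero hz (f.injective h3)
  refine ⟨g, isoId_inv0 (u := toC f) (v := toC g) h h0 hgz, ?_, hg⟩
  rw [hgz, inv_zero, h0, inv_zero]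

end Pool.Agent.D0H72.SC
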