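import Mathlib

/-! A homeomorphism which agrees with a contraction outside a fundamental domain is conjugate to
it -/

set_option autoImplicit false

open Set Filter Topology Function

namespace Pool.Agent.D0H72.SC

variable {Y : Type*} [TopologicalSpace Y]

/-- the hypotheses -/
structure Agr (T F : Y ≃ₜ Y) (E O : Set Y) (p : Y) : Prop where
  clE : IsClosed E
  opO : IsOpen O
  sub : O ⊆ E
  mem : p ∈ O
  fix : T p = p
  map : ∀ x ∈ E, T x ∈ O
  eq1 : ∀ x ∈ E, F x = T x
  eq2 : ∀ x, x ∉ O → F (T.symm x) = x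
  lim : ∀ W ∈ 𝓝 p, ∃ n : ℕ, ∀ x ∈ E, T^[n] x ∈ W

namespace Agr

variable {T F : Y ≃ₜ Y} {E O : Set Y} {p : Y}

theorem iter_eq (h : Agr T F E O p) (n : ℕ) : ∀ x ∈ E, F^[n] x = T^[n] x := by
  induction n with
  | zero => exact fun x _ => rfl
  | succ n ih =>
    intro x hx
    rw [iterate_succ_apply, iterate_succ_apply, h.eq1 x hx, ih _ (h.sub (h.map x hx))]

theorem inv_eq (h : Agr T F E O p) {x : Y} (hx : x ∉ O) : F.symm x = T.symm x := by
  rw [Homeomorph.symm_apply_eq, h.eq2 x hx]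

theorem symm (h : Agr T F E O p) : Agr F T E O p where
  clE := h.clE
  opO := h.opO
  sub := h.sub
  mem := h.mem
  fix := by rw [h.eq1 p (h.sub h.mem), h.fix]
  map x hx := by rw [h.eq1 x hx]; exact h.map x hx
  eq1 x hx := (h.eq1 x hx).symm
  eq2 x hx := by rw [h.inv_eq hx, T.apply_symm_apply]
  lim W hW := by
    obtain ⟨n, hn⟩ := h.lim W hW
    exact ⟨n, fun x hx => by rw [h.iter_eq n x hx]; exact hn x hx⟩

theorem out (h : Agr T F E O p) {x : Y} (hx : x ∉ O) : F.symm x ∉ E := by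
  rw [h.inv_eq hx]
  intro hc
  have := h.map _ hc
  rw [T.apply_symm_apply] at this
  exact hx this

theorem step (h : Agr T F E O p) {x : Y} (hx : x ∉ O) : T (F.symm x) = x := by
  rw [h.inv_eq hx, T.apply_symm_apply]

/-- stability -/
theorem stab (h : Agr T F E O p) {x : Y} (hx : x ∉ O) (m : ℕ) :
    F.symm^[m] x ∉ O ∧ T^[m] (F.symm^[m] x) = x := by
  induction m generalizing x with
  | zero => exact ⟨hx, rfl⟩
  | succ m ih =>
    have h1 : F.symm x ∉ O := fun hc => h.out hx (h.sub hc)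
    obtain ⟨h2, h3⟩ := ih h1
    rw [iterate_succ_apply]
    refine ⟨h2, ?_⟩
    rw [iterate_succ_apply', h3, h.step hx]

theorem stab' (h : Agr T F E O p) {x : Y} {n : ℕ} (hx : F.symm^[n] x ∉ O) (m : ℕ) :
    F.symm^[m + n] x ∉ O ∧ T^[m + n] (F.symm^[m + n] x) = T^[n] (F.symm^[n] x) := by
  obtain ⟨h1, h2⟩ := h.stab hx m
  rw [iterate_add_apply]
  refine ⟨h1, ?_⟩
  rw [add_comm m n, iterate_add_apply, h2]

theorem ind (h : Agr T F E O p) {x : Y} {n m : ℕ} (hn : F.symm^[n] x ∉ O)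
    (hm : F.symm^[m] x ∉ O) : T^[n] (F.symm^[n] x) = T^[m] (F.symm^[m] x) := by
  rcases le_total n m with hnm | hnm
  · obtain ⟨k, rfl⟩ := Nat.exists_eq_add_of_le' hnm
    exact (h.stab' hn k).2.symm
  · obtain ⟨k, rfl⟩ := Nat.exists_eq_add_of_le' hnm
    exact (h.stab' hm k).2

theorem fixF (h : Agr T F E O p) (n : ℕ) : F.symm^[n] p = p := by
  have h1 : F.symm p = p := by
    rw [Homeomorph.symm_apply_eq]
    exact h.symm.fix.symm
  exact Function.iterate_fixed h1 n

theorem exists_n [T1Space Y] (h : Agr T F E O p) {x : Y} (hx : x ≠ p) :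
    ∃ n, F.symm^[n] x ∉ O := by
  by_contra hc
  push Not at hc
  apply hx
  have h1 : ∀ n, T^[n] (F.symm^[n] x) = x := by
    intro n
    rw [← h.iter_eq n _ (h.sub (hc n))]
    exact (F.right_inv.iterate n) x
  by_contra hne
  obtain ⟨n, hn⟩ := h.lim {x}ᶜ (isOpen_compl_singleton.mem_nhds (Ne.symm hx))
  exact hn _ (h.sub (hc n)) (h1 n)

/-- the conjugacy as a function -/
theorem exists_h (h : Agr T F E O p) : ∃ g : Y → Y,
    (∀ x n, F.symm^[n] x ∉ O → g x = T^[n] (F.symm^[n] x)) ∧ g p = p := by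
  classical
  refine ⟨fun x => if hx : ∃ n, F.symm^[n] x ∉ O then T^[Nat.find hx] (F.symm^[Nat.find hx] x)
    else x, fun x n hn => ?_, ?_⟩
  · have hx : ∃ n, F.symm^[n] x ∉ O := ⟨n, hn⟩
    simp only [dif_pos hx]
    exact h.ind (Nat.find_spec hx) hn
  · have hx : ¬ ∃ n, F.symm^[n] p ∉ O := by
      push Not
      intro n
      rw [h.fixF]
      exact h.mem
    simp only [dif_neg hx]

theorem ne_p (h : Agr T F E O p) {x : Y} {n : ℕ} (hn : F.symm^[n] x ∉ O) : x ≠ p := by
  rintro rfl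
  rw [h.fixF] at hn
  exact hn h.mem

theorem maps_E (h : Agr T F E O p) (n : ℕ) : ∀ x ∈ E, F.symm^[n] x ∉ O →
    T^[n] (F.symm^[n] x) ∈ E := by
  induction n with
  | zero => exact fun x hx _ => hx
  | succ n ih =>
    intro x hx hn
    by_cases hxO : x ∈ O
    · rw [iterate_succ_apply' T, iterate_succ_apply F.symm]
      rw [iterate_succ_apply F.symm] at hn
      by_cases hy : F.symm x ∈ E
      · exact h.sub (h.map _ (ih _ hy hn))
      · have hy' : F.symm x ∉ O := fun hc => hy (h.sub hc)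
        rw [(h.stab hy' n).2]
        by_contra hc
        have h1 := h.eq2 (T (F.symm x)) (fun hh => hc (h.sub hh))
        rw [T.symm_apply_apply, F.apply_symm_apply] at h1
        rw [← h1] at hc
        exact hc hx
    · rw [(h.stab hxO (n + 1)).2]
      exact hx

theorem equivariant [T1Space Y] (h : Agr T F E O p) {g : Y → Y}
    (h1 : ∀ x n, F.symm^[n] x ∉ O → g x = T^[n] (F.symm^[n] x)) (h2 : g p = p) (x : Y) :
    g (F x) = T (g x) := by
  by_cases hx : x = p
  · rw [hx, h.symm.fix, h2, h.fix]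
  · obtain ⟨n, hn⟩ := h.exists_n hx
    have h3 : F.symm^[n + 1] (F x) = F.symm^[n] x := by
      rw [iterate_succ_apply, F.symm_apply_apply]
    rw [h1 x n hn, h1 (F x) (n + 1) (by rwa [h3]), h3, iterate_succ_apply']

theorem equivariant_iter [T1Space Y] (h : Agr T F E O p) {g : Y → Y}
    (h1 : ∀ x n, F.symm^[n] x ∉ O → g x = T^[n] (F.symm^[n] x)) (h2 : g p = p) (n : ℕ) (x : Y) :
    g (F^[n] x) = T^[n] (g x) := by
  induction n generalizing x with
  | zero => rfl
  | succ n ih =>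
    rw [iterate_succ_apply, ih, h.equivariant h1 h2, iterate_succ_apply]

theorem cont [T1Space Y] (h : Agr T F E O p) {g : Y → Y}
    (h1 : ∀ x n, F.symm^[n] x ∉ O → g x = T^[n] (F.symm^[n] x)) (h2 : g p = p) :
    Continuous g := by
  rw [continuous_iff_continuousAt]
  intro x
  by_cases hx : x = p
  · subst hx
    intro W hW
    rw [h2] at hW
    obtain ⟨N, hN⟩ := h.lim W hW
    have hc : Continuous (F.symm^[N]) := F.symm.continuous.iterate N
    have h3 : ∀ᶠ y in 𝓝 x, F.symm^[N] y ∈ O := by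
      apply hc.continuousAt.eventually_mem
      rw [h.fixF]
      exact h.opO.mem_nhds h.mem
    change ∀ᶠ y in 𝓝 x, g y ∈ W
    filter_upwards [h3] with y hy
    have h4 : y = F^[N] (F.symm^[N] y) := ((F.right_inv.iterate N) y).symm
    have h5 : g (F.symm^[N] y) ∈ E := by
      by_cases hz : F.symm^[N] y = x
      · rw [hz, h2]
        exact h.sub h.mem
      · obtain ⟨n, hn⟩ := h.exists_n hz
        rw [h1 _ n hn]
        exact h.maps_E n _ (h.sub hy) hn
    rw [h4, h.equivariant_iter h1 h2]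
    exact hN _ h5
  · obtain ⟨n, hn⟩ := h.exists_n hx
    have h3 : F.symm^[n + 1] x ∉ E := by
      rw [iterate_succ_apply']
      exact h.out hn
    have hc : Continuous (F.symm^[n + 1]) := F.symm.continuous.iterate (n + 1)
    have h4 : ∀ᶠ y in 𝓝 x, F.symm^[n + 1] y ∈ Eᶜ :=
      hc.continuousAt.eventually_mem (h.clE.isOpen_compl.mem_nhds h3)
    have h5 : ContinuousAt (fun y => T^[n + 1] (F.symm^[n + 1] y)) x :=
      ((T.continuous.iterate (n + 1)).comp hc).continuousAt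
    apply h5.congr
    filter_upwards [h4] with y hy
    exact (h1 y (n + 1) fun hO => hy (h.sub hO)).symm

theorem left_inv [T1Space Y] (h : Agr T F E O p) {g k : Y → Y}
    (h1 : ∀ x n, F.symm^[n] x ∉ O → g x = T^[n] (F.symm^[n] x)) (h2 : g p = p)
    (h3 : ∀ x n, T.symm^[n] x ∉ O → k x = F^[n] (T.symm^[n] x)) (h4 : k p = p) (x : Y) :
    k (g x) = x := by
  by_cases hx : x = p
  · rw [hx, h2, h4]
  · obtain ⟨n, hn⟩ := h.exists_n hx
    have e : T.symm^[n] (T^[n] (F.symm^[n] x)) = F.symm^[n] x :=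
      (T.left_inv.iterate n) _
    rw [h1 x n hn, h3 _ n (by rwa [e]), e]
    exact (F.right_inv.iterate n) x

/-- the conjugacy -/
theorem conj [T1Space Y] (h : Agr T F E O p) : ∃ g : Y ≃ₜ Y, ∀ x, g (F x) = T (g x) := by
  obtain ⟨g, h1, h2⟩ := h.exists_h
  obtain ⟨k, h3, h4⟩ := h.symm.exists_h
  exact ⟨⟨⟨g, k, h.left_inv h1 h2 h3 h4, h.symm.left_inv h3 h4 h1 h2⟩, h.cont h1 h2,
    h.symm.cont h3 h4⟩, h.equivariant h1 h2⟩

end Agr

end Pool.Agent.D0H72.SC
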