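import Pool.Agent.D0H72.SC.Local

/-! Germs of the elements of the group -/

set_option autoImplicit false

open Set Filter Topology Metric Function
open scoped OnePoint

noncomputable section

namespace Pool.Agent.D0H72.SC

open Pool.Agent.Helper984_CP Pool.Agent.D0H72.AP

/-- the origin -/
abbrev o : X := ((0 : ℂ) : X)

/-- near the origin, `A` agrees with homeomorphisms with small support -/
def LS (A : X ≃ₜ X) : Prop := A o = o ∧ ∀ W ∈ 𝓝 o, ∃ k : X ≃ₜ X, (∀ y, y ∉ W → k y = y) ∧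
  ∀ᶠ z in 𝓝 o, A z = k z

theorem LS.one : LS 1 := ⟨rfl, fun _ _ => ⟨1, fun _ _ => rfl, Eventually.of_forall fun _ => rfl⟩⟩

theorem LS.tendsto {A : X ≃ₜ X} (h : LS A) : Tendsto A (𝓝 o) (𝓝 o) := by
  have := A.continuous.tendsto o
  rwa [h.1] at this

theorem LS.mul {A B : X ≃ₜ X} (hA : LS A) (hB : LS B) : LS (A * B) := by
  refine ⟨?_, fun W hW => ?_⟩
  · change A (B o) = o
    rw [hB.1, hA.1]
  · obtain ⟨k, hk1, hk2⟩ := hA.2 W hW
    obtain ⟨l, hl1, hl2⟩ := hB.2 W hW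
    refine ⟨k * l, fun y hy => ?_, ?_⟩
    · change k (l y) = y
      rw [hl1 y hy, hk1 y hy]
    · filter_upwards [hl2, hB.tendsto.eventually hk2] with z hz1 hz2
      change A (B z) = k (l z)
      rw [hz2, hz1]

theorem LS.inv {A : X ≃ₜ X} (hA : LS A) : LS A⁻¹ := by
  have h0 : A⁻¹ o = o := by
    change A.symm o = o
    rw [Homeomorph.symm_apply_eq, hA.1]
  refine ⟨h0, fun W hW => ?_⟩
  obtain ⟨k, hk1, hk2⟩ := hA.2 W hW
  refine ⟨k⁻¹, fun y hy => ?_, ?_⟩
  · change k.symm y = y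
    rw [Homeomorph.symm_apply_eq, hk1 y hy]
  · have h1 : Tendsto (A⁻¹ : X ≃ₜ X) (𝓝 o) (𝓝 o) := by
      have := (A⁻¹ : X ≃ₜ X).continuous.tendsto o
      rwa [h0] at this
    filter_upwards [h1.eventually hk2] with z hz
    have h2 : A (A⁻¹ z) = z := A.apply_symm_apply z
    rw [h2] at hz
    change A⁻¹ z = k.symm z
    rw [eq_comm, Homeomorph.symm_apply_eq]
    exact hz

/-- from the plane -/
theorem LS.of_plane {A : X ≃ₜ X} (h0 : A o = o) (h : ∀ R : ℝ, 0 < R → ∃ k : ℂ ≃ₜ ℂ,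
    (∀ᶠ z : ℂ in 𝓝 0, A (z : X) = ((k z : ℂ) : X)) ∧ ∀ z, R ≤ ‖z‖ → k z = z) : LS A := by
  refine ⟨h0, fun W hW => ?_⟩
  have h1 : ((↑) : ℂ → X) ⁻¹' W ∈ 𝓝 (0 : ℂ) := OnePoint.continuous_coe.continuousAt hW
  obtain ⟨R, hR, hRW⟩ := Metric.mem_nhds_iff.1 h1
  obtain ⟨k, hk1, hk2⟩ := h R hR
  refine ⟨io k, fun y hy => ?_, ?_⟩
  · induction y using OnePoint.rec with
    | infty => rfl
    | coe z =>
      rw [io_coe, hk2]
      by_contra hc
      exact hy (hRW (mem_ball_zero_iff.2 (not_le.1 hc)))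
  · rw [OnePoint.nhds_coe_eq, eventually_map]
    exact hk1

theorem LS.of_hol {A : X ≃ₜ X} (h0 : A o = o) {g : ℂ → ℂ} {a : ℂ} (hg : HasStrictDerivAt g a 0)
    (ha : a ≠ 0) (hAg : ∀ᶠ z : ℂ in 𝓝 0, A (z : X) = ((g z : ℂ) : X)) : LS A := by
  have hg0 : g 0 = 0 := by
    have := hAg.self_of_nhds
    change A o = _ at this
    rw [h0] at this
    exact (OnePoint.coe_injective this).symm
  apply LS.of_plane h0
  intro R hR
  obtain ⟨k, hk1, hk2⟩ := ext_hol hg ha hg0 hR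
  refine ⟨k, ?_, hk2⟩
  filter_upwards [hk1, hAg] with z hz1 hz2
  rw [hz2, hz1]

theorem LS.of_iso {f : ℂ ≃ₜ ℂ} (hf : Iso f) (h0 : f 0 = 0) : LS (io f) := by
  apply LS.of_plane
  · rw [io_coe, h0]
  · intro R hR
    obtain ⟨k, hk1, hk2⟩ := ext_op hf.op h0 hR
    refine ⟨k, ?_, hk2⟩
    filter_upwards [hk1] with z hz
    rw [io_coe, hz]

/-- translation -/
def tr (p : ℂ) : ℂ ≃ₜ ℂ := aff 1 p one_ne_zero

theorem tr_apply (p z : ℂ) : tr p z = z + p := by
  rw [tr, aff_apply, one_mul]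

theorem tr_inv_apply (p z : ℂ) : (tr p)⁻¹ z = z - p := by
  change (tr p).symm z = z - p
  rw [tr, aff_symm_apply, div_one]

theorem tr_inv (p : ℂ) : (tr p)⁻¹ = tr (-p) := by
  ext z
  rw [tr_inv_apply, tr_apply, sub_eq_add_neg]

theorem Iso.tr (p : ℂ) : Iso (tr p) := Iso.aff _ _ _

/-- the standard charts -/
def ch (x : X) : X ≃ₜ X := x.elim J (fun p => io (tr p))

theorem ch_coe (p : ℂ) : ch (p : X) = io (tr p) := rfl
theorem ch_infty : ch ∞ = J := rfl

/-- the germs of `A` at all points are standard -/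
def LSx (A : X ≃ₜ X) : Prop := ∀ x, LS ((ch (A x))⁻¹ * A * ch x)

theorem LSx.mul {A B : X ≃ₜ X} (hA : LSx A) (hB : LSx B) : LSx (A * B) := by
  intro x
  have h := (hA (B x)).mul (hB x)
  have e : (ch (A (B x)))⁻¹ * A * ch (B x) * ((ch (B x))⁻¹ * B * ch x) =
      (ch ((A * B) x))⁻¹ * (A * B) * ch x := by
    change _ = (ch (A (B x)))⁻¹ * (A * B) * ch x
    group
  rwa [e] at h

theorem LSx.inv {A : X ≃ₜ X} (hA : LSx A) : LSx A⁻¹ := by
  intro x
  have h := (hA (A⁻¹ x)).inv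
  have h2 : A (A⁻¹ x) = x := A.apply_symm_apply x
  rw [h2] at h
  have e : ((ch x)⁻¹ * A * ch (A⁻¹ x))⁻¹ = (ch (A⁻¹ x))⁻¹ * A⁻¹ * ch x := by
    group
  rwa [e] at h

theorem LS_zero : LS (io (tr 0)) := LS.of_iso (Iso.tr 0) (by rw [tr_apply, add_zero])

theorem LS_trans (q : ℂ) : LS (J * io (tr q) * J) := by
  have h0 : (J * io (tr q) * J) o = o := by
    change J (io (tr q) (J o)) = o
    rw [J_zero, io_infty, J_infty]
  apply LS.of_hol (g := fun z => z / (1 + q * z)) (a := 1) h0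
  · have h1 : HasStrictDerivAt (fun z : ℂ => 1 + q * z) q 0 := by
      have := ((hasStrictDerivAt_id (0 : ℂ)).const_mul q).const_add 1
      simpa using this
    have h2 : HasStrictDerivAt (fun z : ℂ => z / (1 + q * z))
        ((1 * (1 + q * 0) - 0 * q) / (1 + q * 0) ^ 2) 0 :=
      (hasStrictDerivAt_id (0 : ℂ)).div h1 (by simp)
    have e : (1 * (1 + q * 0) - 0 * q) / (1 + q * 0) ^ 2 = 1 := by simp
    rwa [e] at h2
  · exact one_ne_zero
  · have h1 : ∀ᶠ z in 𝓝 (0 : ℂ), 1 + q * z ≠ 0 := by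
      have : ContinuousAt (fun z : ℂ => 1 + q * z) 0 := by fun_prop
      apply this.eventually_ne
      simp
    filter_upwards [h1] with z hz
    by_cases h : z = 0
    · rw [h, zero_div]
      exact h0
    · change J (io (tr q) (J z)) = _
      have h2 : z⁻¹ + q = (1 + q * z) / z := by field_simp
      rw [J_coe h, io_coe, tr_apply, h2, J_coe (div_ne_zero hz h), inv_div]

theorem LSx_io {f : ℂ ≃ₜ ℂ} (hf : Iso f) : LSx (io f) := by
  intro x
  induction x using OnePoint.rec with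
  | infty =>
    rw [io_infty, ch_infty, J_inv]
    obtain ⟨g, hg⟩ : ∃ g : ℂ ≃ₜ ℂ, g = (tr (f 0))⁻¹ * f := ⟨_, rfl⟩
    have hg1 : Iso g := by
      rw [hg, tr_inv]
      exact (Iso.tr _).mul hf
    have hg0 : g 0 = 0 := by
      rw [hg]
      change (tr (f 0))⁻¹ (f 0) = 0
      rw [tr_inv_apply, sub_self]
    obtain ⟨g', h1, h2, h3⟩ := hg1.inv0 hg0
    have h4 := (LS_trans (f 0)).mul (LS.of_iso h1 h2)
    have e : J * io f * J = J * io (tr (f 0)) * J * io g' := by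
      rw [h3, hg, map_mul, map_inv]
      have : J * io (tr (f 0)) * J * (J * ((io (tr (f 0)))⁻¹ * io f) * J) =
          J * io (tr (f 0)) * (J * J) * ((io (tr (f 0)))⁻¹ * io f) * J := by group
      rw [this, J_mul_J]
      group
    rwa [e]
  | coe p =>
    rw [io_coe, ch_coe, ch_coe, ← map_inv, ← map_mul, ← map_mul]
    apply LS.of_iso
    · rw [tr_inv]
      exact ((Iso.tr _).mul hf).mul (Iso.tr _)
    · change (tr (f p))⁻¹ (f (tr p 0)) = 0
      rw [tr_inv_apply, tr_apply, zero_add, sub_self]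

theorem LSx_J : LSx J := by
  intro x
  induction x using OnePoint.rec with
  | infty =>
    rw [J_infty, ch_infty, ch_coe, mul_assoc, J_mul_J, mul_one]
    exact LS_zero.inv
  | coe p =>
    by_cases hp : p = 0
    · subst hp
      rw [J_zero, ch_infty, ch_coe, J_inv, J_mul_J, one_mul]
      exact LS_zero
    · rw [J_coe hp, ch_coe, ch_coe, ← map_inv]
      have h0 : (io (tr p⁻¹)⁻¹ * J * io (tr p)) o = o := by
        change io (tr p⁻¹)⁻¹ (J (io (tr p) o)) = o
        rw [io_coe, tr_apply, zero_add, J_coe hp, io_coe, tr_inv_apply, sub_self]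
      apply LS.of_hol (g := fun z => (z + p)⁻¹ - p⁻¹) (a := -(p ^ 2)⁻¹) h0
      · have h1 : HasStrictDerivAt (fun z : ℂ => z + p) 1 0 :=
          (hasStrictDerivAt_id (0 : ℂ)).add_const p
        have h3 : (0 : ℂ) + p ≠ 0 := by rwa [zero_add]
        have h2 : HasStrictDerivAt (fun z : ℂ => (z + p)⁻¹ - p⁻¹) (-((0 + p) ^ 2)⁻¹ * 1) 0 :=
          ((hasStrictDerivAt_inv h3).comp (0 : ℂ) h1).sub_const p⁻¹
        have e : -((0 + p) ^ 2)⁻¹ * 1 = -(p ^ 2)⁻¹ := by simp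
        rwa [e] at h2
      · exact neg_ne_zero.2 (inv_ne_zero (pow_ne_zero 2 hp))
      · have h1 : ∀ᶠ z in 𝓝 (0 : ℂ), z + p ≠ 0 := by
          have : ContinuousAt (fun z : ℂ => z + p) 0 := by fun_prop
          apply this.eventually_ne
          simpa using hp
        filter_upwards [h1] with z hz
        change io (tr p⁻¹)⁻¹ (J (io (tr p) z)) = _
        rw [io_coe, tr_apply, J_coe hz, io_coe, tr_inv_apply]

theorem LSx_of_mem {A : X ≃ₜ X} (hA : A ∈ Gr) : LSx A := by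
  unfold Gr at hA
  induction hA using Subgroup.closure_induction with
  | mem g hg =>
    rcases hg with ⟨f, hf, rfl⟩ | hg
    · exact LSx_io hf
    · rw [mem_singleton_iff.1 hg]
      exact LSx_J
  | one =>
    intro x
    have : (ch ((1 : X ≃ₜ X) x))⁻¹ * 1 * ch x = 1 := by
      change (ch x)⁻¹ * 1 * ch x = 1
      group
    rw [this]
    exact LS.one
  | mul a b _ _ ha hb => exact ha.mul hb
  | inv a _ ha => exact ha.inv

end Pool.Agent.D0H72.SC
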