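import Pool.Agent.D0H72.SC.Mob

/-! The product of two maps in normal form -/

set_option autoImplicit false

open Set Filter Topology Metric Function
open scoped OnePoint

noncomputable section

namespace Pool.Agent.D0H72.SC

open Pool.Agent.D0H72.AP

/-- `A` agrees with `z ↦ 1 + ε z` near `0` and near `-ε` -/
def Nf (A : X ≃ₜ X) (ε δ : ℝ) : Prop := ∀ z : ℂ, (‖z‖ ≤ δ ∨ ‖z + ε‖ ≤ δ) →
  A (z : X) = ((1 + ε * z : ℂ) : X)

/-- the Möbius map -/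
def Mf (c ε ε' : ℝ) (z : ℂ) : ℂ := c * (1 + ε' * z) / (1 + ε' * z + ε * c)

theorem inv_mc_J {c : ℂ} (hc : c ≠ 0) {w : ℂ} (hw : w ≠ 0) :
    (io (mc c hc) * J)⁻¹ (w : X) = ((c / w : ℂ) : X) := by
  rw [mul_inv_rev, J_inv, ← map_inv]
  change J (io (mc c hc)⁻¹ w) = _
  rw [io_coe, mc_inv_apply, J_coe (div_ne_zero hw hc), inv_div]

theorem inv_mc_J_infty {c : ℂ} (hc : c ≠ 0) : (io (mc c hc) * J)⁻¹ ∞ = o := by
  rw [mul_inv_rev, J_inv, ← map_inv]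
  change J (io (mc c hc)⁻¹ ∞) = _
  rw [io_infty, J_infty]

theorem mc_J {c : ℂ} (hc : c ≠ 0) {w : ℂ} (hw : w ≠ 0) :
    (io (mc c hc) * J) (w : X) = ((c / w : ℂ) : X) := by
  change io (mc c hc) (J w) = _
  rw [J_coe hw, io_coe, mc_apply, div_eq_mul_inv]

theorem norm_one_add {ε : ℝ} (hε : ε = 1 ∨ ε = -1) {z : ℂ} {r : ℝ} (hz : ‖z‖ ≤ r) :
    1 - r ≤ ‖(1 + ε * z : ℂ)‖ := by
  have h1 : ‖(ε * z : ℂ)‖ = ‖z‖ := by
    rw [norm_mul, Complex.norm_real]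
    rcases hε with h | h <;> rw [h] <;> simp
  have h2 := norm_sub_norm_le (1 : ℂ) (-(ε * z))
  rw [norm_neg, h1, norm_one, sub_neg_eq_add] at h2
  linarith

section

variable {A B : X ≃ₜ X} {ε ε' δ c r p : ℝ}

/-- the affine map `z ↦ 1 + ε z` -/
def af (ε : ℝ) (hε : (ε : ℂ) ≠ 0) : ℂ ≃ₜ ℂ := aff ε 1 hε

theorem af_apply (hε : (ε : ℂ) ≠ 0) (z : ℂ) : af ε hε z = 1 + ε * z := by
  rw [af, aff_apply, add_comm]

theorem af_inv_apply (hε : (ε : ℂ) ≠ 0) (z : ℂ) : (af ε hε)⁻¹ z = (z - 1) / ε := by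
  change (af ε hε).symm z = _
  rw [af, aff_symm_apply]

theorem agr (hA : Nf A ε δ) (hB : Nf B ε' δ) (hε : ε = 1 ∨ ε = -1) (hε' : ε' = 1 ∨ ε' = -1)
    (hεc : (ε : ℂ) ≠ 0) (hεc' : (ε' : ℂ) ≠ 0)
    (hc0 : 0 < c) (hcc : (c : ℂ) ≠ 0) (hr0 : 0 < r) (hr : r ≤ 1 / 8) (hrδ : r ≤ δ) (hcr : c ≤ r ^ 2)
    (hp : |p| < r) (hfix : (c - p) * (1 + ε' * p) = ε * p * c) :
    Agr (io (mc c hcc) * J * io (af ε hεc) * (io (mc c hcc) * J)⁻¹ * io (af ε' hεc'))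
      (io (mc c hcc) * J * A * (io (mc c hcc) * J)⁻¹ * B)
      (((↑) : ℂ → X) '' closedBall 0 r) (((↑) : ℂ → X) '' ball 0 r) ((p : ℂ) : X) := by
  obtain ⟨m, hm⟩ : ∃ m, m = io (mc c hcc) * J := ⟨_, rfl⟩
  have hm1 : ∀ w : ℂ, w ≠ 0 → m⁻¹ (w : X) = ((c / w : ℂ) : X) := fun w hw => by
    rw [hm]; exact inv_mc_J hcc hw
  have hm2 : m⁻¹ ∞ = o := by rw [hm]; exact inv_mc_J_infty hcc
  have hm3 : ∀ w : ℂ, w ≠ 0 → m (w : X) = ((c / w : ℂ) : X) := fun w hw => by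
    rw [hm]; exact mc_J hcc hw
  rw [← hm]
  have hεn : ∀ z : ℂ, ‖(ε : ℂ) * z‖ = ‖z‖ := fun z => by
    rw [norm_mul, Complex.norm_real]
    rcases hε with h | h <;> rw [h] <;> simp
  have hεn' : ∀ z : ℂ, ‖(ε' : ℂ) * z‖ = ‖z‖ := fun z => by
    rw [norm_mul, Complex.norm_real]
    rcases hε' with h | h <;> rw [h] <;> simp
  have hε2 : (ε : ℂ) * ε = 1 := by
    rcases hε with h | h <;> rw [h] <;> simp
  have hε2' : (ε' : ℂ) * ε' = 1 := by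
    rcases hε' with h | h <;> rw [h] <;> simp
  have hcn : ‖(c : ℂ)‖ = c := by rw [Complex.norm_real, Real.norm_of_nonneg hc0.le]
  -- the small quotient
  have hq : ∀ w : ℂ, 1 - r ≤ ‖w‖ → w ≠ 0 ∧ ‖(c : ℂ) / w‖ ≤ r / 4 := by
    intro w hw
    have hw0 : 0 < ‖w‖ := by linarith
    refine ⟨norm_pos_iff.1 hw0, ?_⟩
    rw [norm_div, hcn, div_le_iff₀ hw0]
    nlinarith
  -- action on the ball
  have hT : ∀ z : ℂ, ‖z‖ ≤ r →
      (m * io (af ε hεc) * m⁻¹ * io (af ε' hεc')) (z : X) = ((Mf c ε ε' z : ℂ) : X) ∧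
      (m * A * m⁻¹ * B) (z : X) = ((Mf c ε ε' z : ℂ) : X) ∧ 1 / 2 ≤ ‖(1 + ε' * z + ε * c : ℂ)‖ ∧
      ‖Mf c ε ε' z‖ < r := by
    intro z hz
    obtain ⟨s, hs⟩ : ∃ s : ℂ, s = 1 + ε' * z := ⟨_, rfl⟩
    have h1 : 1 - r ≤ ‖s‖ := by rw [hs]; exact norm_one_add hε' hz
    obtain ⟨h2, h3⟩ := hq s h1
    have h4 : 1 - r ≤ ‖(1 + ε * (c / s) : ℂ)‖ := norm_one_add hε (by linarith)
    obtain ⟨h5, h6⟩ := hq _ h4
    have h7 : (c : ℂ) / (1 + ε * (c / s)) = Mf c ε ε' z := by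
      rw [Mf, ← hs]
      have e : (1 + ε * (c / s) : ℂ) = (s + ε * c) / s := by field_simp
      rw [e, div_div_eq_mul_div]
    have h8 : 1 / 2 ≤ ‖(1 + ε' * z + ε * c : ℂ)‖ := by
      rw [← hs]
      have h9 := norm_sub_norm_le s (-((ε : ℂ) * c))
      rw [norm_neg, hεn, hcn, sub_neg_eq_add] at h9
      nlinarith
    refine ⟨?_, ?_, h8, ?_⟩
    · change m (io (af ε hεc) (m⁻¹ (io (af ε' hεc') z))) = _
      rw [io_coe, af_apply, ← hs, hm1 s h2, io_coe, af_apply, hm3 _ h5, h7]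
    · change m (A (m⁻¹ (B z))) = _
      rw [hB z (Or.inl (by linarith)), ← hs, hm1 s h2, hA _ (Or.inl (by linarith)), hm3 _ h5, h7]
    · rw [← h7]
      linarith
  have hMf : ∀ z w : ℂ, ‖z‖ ≤ r → ‖w‖ ≤ r → ‖Mf c ε ε' z - Mf c ε ε' w‖ ≤ 1 / 2 * ‖z - w‖ := by
    intro z w hz hw
    obtain ⟨-, -, h1, -⟩ := hT z hz
    obtain ⟨-, -, h2, -⟩ := hT w hw
    have h3 : (1 + ε' * z + ε * c : ℂ) ≠ 0 := norm_pos_iff.1 (by linarith)
    have h4 : (1 + ε' * w + ε * c : ℂ) ≠ 0 := norm_pos_iff.1 (by linarith)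
    have e : Mf c ε ε' z - Mf c ε ε' w = (c * (c * (ε * (ε' * (z - w))))) /
        ((1 + ε' * z + ε * c) * (1 + ε' * w + ε * c)) := by
      rw [Mf, Mf, div_sub_div _ _ h3 h4]
      congr 1
      ring
    rw [e, norm_div, norm_mul, norm_mul, hεn, hεn', norm_mul, hcn]
    rw [div_le_iff₀ (by positivity)]
    have h5 : (1 / 4 : ℝ) ≤ ‖(1 + ε' * z + ε * c : ℂ)‖ * ‖(1 + ε' * w + ε * c : ℂ)‖ := by
      nlinarith
    have h6' : c ≤ 1 / 8 := by nlinarith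
    have h6 : c * c ≤ 1 / 8 := by nlinarith
    have h7 := norm_nonneg (z - w)
    calc c * (c * ‖z - w‖) = (c * c) * ‖z - w‖ := by ring
      _ ≤ 1 / 8 * ‖z - w‖ := by gcongr
      _ = 1 / 2 * ‖z - w‖ * (1 / 4) := by ring
      _ ≤ 1 / 2 * ‖z - w‖ * (‖(1 + ε' * z + ε * c : ℂ)‖ * ‖(1 + ε' * w + ε * c : ℂ)‖) := by
        gcongr
  have hpr : ‖(p : ℂ)‖ < r := by rwa [Complex.norm_real, Real.norm_eq_abs]
  have hMp : Mf c ε ε' p = p := by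
    obtain ⟨-, -, h1, -⟩ := hT p hpr.le
    have h3 : (1 + ε' * p + ε * c : ℂ) ≠ 0 := norm_pos_iff.1 (by linarith)
    rw [Mf, div_eq_iff h3]
    have h4 : ((c : ℂ) - p) * (1 + ε' * p) = ε * p * c := by exact_mod_cast hfix
    linear_combination h4
  have hfixT : (m * io (af ε hεc) * m⁻¹ * io (af ε' hεc')) ((p : ℂ) : X) = ((p : ℂ) : X) := by
    rw [(hT p hpr.le).1, hMp]
  refine ⟨?_, ?_, image_mono ball_subset_closedBall, ⟨p, mem_ball_zero_iff.2 hpr, rfl⟩, hfixT,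
    ?_, ?_, ?_, ?_⟩
  · exact ((isCompact_closedBall 0 r).image OnePoint.continuous_coe).isClosed
  · exact OnePoint.isOpenEmbedding_coe.isOpenMap _ isOpen_ball
  · rintro _ ⟨z, hz, rfl⟩
    rw [mem_closedBall_zero_iff] at hz
    rw [(hT z hz).1]
    exact ⟨_, mem_ball_zero_iff.2 (hT z hz).2.2.2, rfl⟩
  · rintro _ ⟨z, hz, rfl⟩
    rw [mem_closedBall_zero_iff] at hz
    rw [(hT z hz).1, (hT z hz).2.1]
  · intro x hx
    obtain ⟨u, hu1, hu2⟩ : ∃ u : ℂ, m⁻¹ x = (u : X) ∧ ‖u‖ ≤ r := by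
      induction x using OnePoint.rec with
      | infty => exact ⟨0, hm2, by rw [norm_zero]; exact hr0.le⟩
      | coe z =>
        have h1 : r ≤ ‖z‖ := by
          by_contra hc
          exact hx ⟨z, mem_ball_zero_iff.2 (not_le.1 hc), rfl⟩
        have h2 : 0 < ‖z‖ := by linarith
        refine ⟨c / z, hm1 z (norm_pos_iff.1 h2), ?_⟩
        rw [norm_div, hcn, div_le_iff₀ h2]
        nlinarith
    have hxu : x = m (u : X) := by
      rw [← hu1]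
      exact (m.apply_symm_apply x).symm
    obtain ⟨v, hv⟩ : ∃ v : ℂ, v = ε * (u - 1) := ⟨_, rfl⟩
    have hv1 : ‖v + ε‖ ≤ r := by
      have : v + ε = ε * u := by rw [hv]; ring
      rw [this, hεn]
      exact hu2
    have hv2 : 1 - r ≤ ‖v‖ := by
      rw [hv, hεn]
      have := norm_sub_norm_le (1 : ℂ) u
      rw [norm_one, norm_sub_rev] at this
      linarith
    obtain ⟨hv3, hv4⟩ := hq v hv2
    obtain ⟨t, ht⟩ : ∃ t : ℂ, t = c / v := ⟨_, rfl⟩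
    have ht0 : t ≠ 0 := by rw [ht]; exact div_ne_zero hcc hv3
    rw [← ht] at hv4
    obtain ⟨z, hz⟩ : ∃ z : ℂ, z = ε' * (t - 1) := ⟨_, rfl⟩
    have hz1 : ‖z + ε'‖ ≤ r := by
      have : z + ε' = ε' * t := by rw [hz]; ring
      rw [this, hεn']
      linarith
    have hz2 : 1 + ε' * z = t := by
      rw [hz, ← mul_assoc, hε2']
      ring
    have hv5 : 1 + ε * v = u := by
      rw [hv, ← mul_assoc, hε2]
      ring
    have hct : (c : ℂ) / t = v := by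
      rw [ht]
      field_simp
    have hTz : (m * io (af ε hεc) * m⁻¹ * io (af ε' hεc')) (z : X) = x := by
      change m (io (af ε hεc) (m⁻¹ (io (af ε' hεc') z))) = _
      rw [io_coe, af_apply, hz2, hm1 t ht0, hct, io_coe, af_apply, hv5, hxu]
    have hz3 : (m * io (af ε hεc) * m⁻¹ * io (af ε' hεc')).symm x = (z : X) := by
      rw [Homeomorph.symm_apply_eq, hTz]
    rw [hz3]
    change m (A (m⁻¹ (B z))) = _
    rw [hB z (Or.inr (by linarith)), hz2, hm1 t ht0, hct, hA v (Or.inr (by linarith)), hv5, hxu]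
  · intro W hW
    have h1 : ((↑) : ℂ → X) ⁻¹' W ∈ 𝓝 (p : ℂ) := OnePoint.continuous_coe.continuousAt hW
    obtain ⟨ρ, hρ, hρW⟩ := Metric.mem_nhds_iff.1 h1
    obtain ⟨n, hn⟩ : ∃ n : ℕ, (1 / 2 : ℝ) ^ n * (2 * r) < ρ := by
      have h2 : Tendsto (fun n : ℕ => (1 / 2 : ℝ) ^ n * (2 * r)) atTop (𝓝 (0 * (2 * r))) :=
        (tendsto_pow_atTop_nhds_zero_of_lt_one (by norm_num) (by norm_num)).mul_const _
      rw [zero_mul] at h2
      exact (h2.eventually_lt_const hρ).exists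
    refine ⟨n, ?_⟩
    rintro _ ⟨z, hz, rfl⟩
    rw [mem_closedBall_zero_iff] at hz
    have h3 : ∀ k : ℕ, ∃ w : ℂ, (m * io (af ε hεc) * m⁻¹ * io (af ε' hεc'))^[k] (z : X) = (w : X) ∧
        ‖w‖ ≤ r ∧ ‖w - p‖ ≤ (1 / 2 : ℝ) ^ k * (2 * r) := by
      intro k
      induction k with
      | zero =>
        refine ⟨z, rfl, hz, ?_⟩
        have := norm_sub_le z (p : ℂ)
        rw [pow_zero, one_mul]
        linarith
      | succ k ih =>
        obtain ⟨w, h4, h5, h6⟩ := ih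
        refine ⟨Mf c ε ε' w, ?_, (hT w h5).2.2.2.le, ?_⟩
        · rw [iterate_succ_apply', h4, (hT w h5).1]
        · have h7 := hMf w p h5 hpr.le
          rw [hMp] at h7
          rw [pow_succ]
          linarith
    obtain ⟨w, h4, h5, h6⟩ := h3 n
    rw [h4]
    apply hρW
    rw [mem_ball, dist_eq_norm]
    linarith

end

end Pool.Agent.D0H72.SC
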