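import Pool.Agent.D0H72.SC.Key

/-! The product of two maps in normal form is conjugate to the standard contraction -/

set_option autoImplicit false

open Set Filter Topology Metric Function
open scoped OnePoint

noncomputable section

namespace Pool.Agent.D0H72.SC

open Pool.Agent.D0H72.AP

theorem params {ε ε' δ : ℝ} (hε : ε = 1 ∨ ε = -1) (hε' : ε' = 1 ∨ ε' = -1) (hδ : 0 < δ) :
    ∃ c r p q l : ℝ, 0 < c ∧ 0 < r ∧ r ≤ 1 / 8 ∧ r ≤ δ ∧ c ≤ r ^ 2 ∧ |p| < r ∧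
      (c - p) * (1 + ε' * p) = ε * p * c ∧ (c - q) * (1 + ε' * q) = ε * q * c ∧ q ≠ p ∧
      c - q ≠ 0 ∧ l ≠ 0 ∧ |l| < 1 ∧ c - p = l * (c - q) := by
  obtain ⟨r, hr0, hr1, hr2⟩ : ∃ r : ℝ, 0 < r ∧ r ≤ 1 / 8 ∧ r ≤ δ :=
    ⟨min (1 / 8) δ, by positivity, min_le_left _ _, min_le_right _ _⟩
  obtain ⟨p, hp⟩ : ∃ p : ℝ, p = r ^ 2 / 4 := ⟨_, rfl⟩
  have hp0 : 0 < p := by rw [hp]; positivity
  have hp1 : p ≤ 1 / 256 := by rw [hp]; nlinarith
  have hpr : p < r := by rw [hp]; nlinarith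
  obtain ⟨D, hD⟩ : ∃ D : ℝ, D = 1 + (ε' - ε) * p := ⟨_, rfl⟩
  have hD1 : 1 / 2 ≤ D ∧ D ≤ 2 := by
    rcases hε with h | h <;> rcases hε' with h' | h' <;> rw [hD, h, h'] <;>
      constructor <;> linarith
  have hD0 : 0 < D := by linarith [hD1.1]
  obtain ⟨c, hc⟩ : ∃ c : ℝ, c = p * (1 + ε' * p) / D := ⟨_, rfl⟩
  have he : 1 / 2 ≤ 1 + ε' * p ∧ 1 + ε' * p ≤ 2 := by
    rcases hε' with h' | h' <;> rw [h'] <;> constructor <;> linarith
  have hε2 : ε * ε = 1 := by rcases hε with h | h <;> rw [h] <;> norm_num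
  have hε2' : ε' * ε' = 1 := by rcases hε' with h | h <;> rw [h] <;> norm_num
  have hεa : |ε| = 1 := by rcases hε with h | h <;> rw [h] <;> norm_num
  have hεa' : |ε'| = 1 := by rcases hε' with h | h <;> rw [h] <;> norm_num
  have hc0 : 0 < c := by rw [hc]; have := he.1; positivity
  have hcp : c - p = ε * p ^ 2 / D := by
    have h1 : c * D = p * (1 + ε' * p) := by
      rw [hc]
      field_simp
    rw [eq_div_iff hD0.ne']
    linear_combination h1 - p * hD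
  obtain ⟨q, hq⟩ : ∃ q : ℝ, q = -ε' * c / p := ⟨_, rfl⟩
  have hq' : q = -ε' * (1 + ε' * p) / D := by
    rw [hq, hc]
    field_simp
  have hcq : c - q = ε' * (1 + ε' * p) ^ 2 / D := by
    rw [hq', hc]
    rw [div_sub_div_same]
    congr 1
    linear_combination (-(p ^ 2) * ε' - p) * hε2'
  have hε0 : ε ≠ 0 := by rcases hε with h | h <;> rw [h] <;> norm_num
  have hε0' : ε' ≠ 0 := by rcases hε' with h | h <;> rw [h] <;> norm_num
  have hep : (1 + ε' * p) ≠ 0 := by linarith [he.1]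
  have hcq0 : c - q ≠ 0 := by
    rw [hcq]
    exact div_ne_zero (mul_ne_zero hε0' (pow_ne_zero 2 hep)) hD0.ne'
  have hf1 : (c - p) * (1 + ε' * p) = ε * p * c := by
    rw [hcp, hc]
    field_simp
  have habs : |q| = (1 + ε' * p) / D := by
    rw [hq', abs_div, abs_mul, abs_neg, hεa', one_mul, abs_of_pos hD0,
      abs_of_pos (by linarith [he.1] : 0 < 1 + ε' * p)]
  refine ⟨c, r, p, q, (c - p) / (c - q), hc0, hr0, hr1, hr2, ?_, ?_, hf1, ?_, ?_, hcq0, ?_, ?_, ?_⟩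
  · rw [hc, div_le_iff₀ hD0]
    have h1 : p * (1 + ε' * p) ≤ 2 * p := by nlinarith [he.2]
    have h2 : 2 * p = r ^ 2 * (1 / 2) := by rw [hp]; ring
    have h3 : r ^ 2 * (1 / 2) ≤ r ^ 2 * D := by
      have := hD1.1
      gcongr
    linarith
  · rw [abs_of_pos hp0]
    exact hpr
  · have h1 : p * q = -ε' * c := by rw [hq]; field_simp
    have h2 : p * p * ((c - q) * (1 + ε' * q)) = p * p * (ε * q * c) := by
      have e1 : p * p * ((c - q) * (1 + ε' * q)) = (p * c - p * q) * (p + ε' * (p * q)) := by ring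
      have e2 : p * p * (ε * q * c) = p * ε * (p * q) * c := by ring
      rw [e1, e2, h1]
      have e3 : p + ε' * (-ε' * c) = p - c := by linear_combination (-c) * hε2'
      rw [e3]
      linear_combination (-c * ε') * hf1 - (c * p * (p - c)) * hε2'
    exact mul_left_cancel₀ (mul_ne_zero hp0.ne' hp0.ne') h2
  · intro h
    rw [h, abs_of_pos hp0] at habs
    rw [eq_div_iff hD0.ne'] at habs
    nlinarith [he.1, hD1.2]
  · rw [hcp]
    exact div_ne_zero (div_ne_zero (mul_ne_zero hε0 (pow_ne_zero 2 hp0.ne')) hD0.ne') hcq0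
  · rw [abs_div, div_lt_one (abs_pos.2 hcq0), hcp, hcq, abs_div, abs_div, abs_mul, abs_mul, hεa,
      hεa', one_mul, one_mul, abs_of_pos hD0]
    gcongr 1
    rw [abs_of_nonneg (by positivity), abs_of_nonneg (by positivity)]
    nlinarith [he.1]
  · rw [div_mul_cancel₀ _ hcq0]

theorem diag {ε ε' c p q l : ℝ} (hε : (ε : ℂ) ≠ 0) (hε' : (ε' : ℂ) ≠ 0) (hc : (c : ℂ) ≠ 0)
    (h1 : (c - p) * (1 + ε' * p) = ε * p * c) (h2 : (c - q) * (1 + ε' * q) = ε * q * c)
    (h3 : q ≠ p) (h4 : c - q ≠ 0) (hl : (l : ℂ) ≠ 0) (h5 : c - p = l * (c - q)) :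
    ∃ H : X ≃ₜ X, H * (io (mc c hc) * J * io (af ε hε) * (io (mc c hc) * J)⁻¹ * io (af ε' hε')) *
      H⁻¹ = io (mc l hl) := by
  have h3' : ((q : ℂ) - p) ≠ 0 := by
    rw [sub_ne_zero]
    exact_mod_cast h3
  have h1' : ((c : ℂ) - p) * (1 + ε' * p) = ε * p * c := by exact_mod_cast h1
  have h2' : ((c : ℂ) - q) * (1 + ε' * q) = ε * q * c := by exact_mod_cast h2
  have h4' : (c : ℂ) - q ≠ 0 := by exact_mod_cast h4
  have h5' : (c : ℂ) - p = l * (c - q) := by exact_mod_cast h5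
  refine ⟨io (aff ((q : ℂ) - p) 1 h3') * J * io (tr (-q)), ?_⟩
  rw [mul_inv_eq_iff_eq_mul]
  apply ext_dense (s := {z : ℂ | 1 + ε' * z = 0} ∪ {z : ℂ | 1 + ε' * z + ε * c = 0} ∪ {(q : ℂ)})
  · have key : ∀ a : ℂ, {z : ℂ | a + ε' * z = 0}.Finite := by
      intro a
      apply (Set.finite_singleton (-a / ε')).subset
      intro z hz
      rw [mem_singleton_iff, eq_div_iff hε']
      have : a + ε' * z = 0 := hz
      linear_combination this
    refine ((key 1).union ((key (1 + ε * c)).subset ?_)).union (finite_singleton _)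
    intro z hz
    have : 1 + ε' * z + ε * c = 0 := hz
    change 1 + ε * c + ε' * z = 0
    linear_combination this
  · intro z hz
    simp only [mem_union, mem_ofPred_eq, mem_singleton_iff, not_or] at hz
    obtain ⟨⟨hz1, hz2⟩, hz3⟩ := hz
    obtain ⟨s, hs⟩ : ∃ s : ℂ, s = 1 + ε' * z := ⟨_, rfl⟩
    rw [← hs] at hz1 hz2
    have hz4 : 1 + ε * (c / s) ≠ 0 := by
      have e : (1 + ε * (c / s) : ℂ) = (s + ε * c) / s := by field_simp
      rw [e]
      exact div_ne_zero hz2 hz1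
    have hM : (c : ℂ) / (1 + ε * (c / s)) = c * s / (s + ε * c) := by
      have e : (1 + ε * (c / s) : ℂ) = (s + ε * c) / s := by field_simp
      rw [e, div_div_eq_mul_div]
    have hTz : (io (mc c hc) * J * io (af ε hε) * (io (mc c hc) * J)⁻¹ * io (af ε' hε')) (z : X) =
        ((c * s / (s + ε * c) : ℂ) : X) := by
      change (io (mc c hc) * J) (io (af ε hε) ((io (mc c hc) * J)⁻¹ (io (af ε' hε') z))) = _
      rw [io_coe, af_apply, ← hs, inv_mc_J hc hz1, io_coe, af_apply, mc_J hc hz4, hM]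
    have hMq : c * s / (s + ε * c) - q = (c - q) * (ε' * (z - q)) / (s + ε * c) := by
      rw [div_sub' hz2]
      congr 1
      rw [hs]
      linear_combination h2'
    have hMp : c * s / (s + ε * c) - p = (c - p) * (ε' * (z - p)) / (s + ε * c) := by
      rw [div_sub' hz2]
      congr 1
      rw [hs]
      linear_combination h1'
    have hzq : z - q ≠ 0 := sub_ne_zero.2 hz3
    have hMq0 : c * s / (s + ε * c) - q ≠ 0 := by
      rw [hMq]
      exact div_ne_zero (mul_ne_zero h4' (mul_ne_zero hε' hzq)) hz2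
    have hH : ∀ w : ℂ, w - q ≠ 0 →
        (io (aff ((q : ℂ) - p) 1 h3') * J * io (tr (-q))) (w : X) = (((w - p) / (w - q) : ℂ) : X) := by
      intro w hw
      change io (aff ((q : ℂ) - p) 1 h3') (J (io (tr (-q)) w)) = _
      rw [io_coe, tr_apply, ← sub_eq_add_neg, J_coe hw, io_coe, aff_apply]
      congr 1
      field_simp
      ring
    change (io (aff ((q : ℂ) - p) 1 h3') * J * io (tr (-q)))
      ((io (mc c hc) * J * io (af ε hε) * (io (mc c hc) * J)⁻¹ * io (af ε' hε')) (z : X)) =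
      io (mc l hl) ((io (aff ((q : ℂ) - p) 1 h3') * J * io (tr (-q))) (z : X))
    rw [hTz, hH _ hMq0, hH _ hzq, io_coe, mc_apply, hMq, hMp, h5', div_div_div_cancel_right₀ hz2]
    congr 1
    field_simp

theorem key {A B : X ≃ₜ X} {ε ε' δ : ℝ} (hA : Nf A ε δ) (hB : Nf B ε' δ) (hε : ε = 1 ∨ ε = -1)
    (hε' : ε' = 1 ∨ ε' = -1) (hδ : 0 < δ) :
    ∃ m g : X ≃ₜ X, g * (m * A * m⁻¹ * B) * g⁻¹ = T0 := by
  obtain ⟨c, r, p, q, l, hc0, hr0, hr1, hr2, hcr, hpr, h1, h2, h3, h4, hl0, hl1, h5⟩ :=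
    params hε hε' hδ
  have hεc : (ε : ℂ) ≠ 0 := by
    rcases hε with h | h <;> rw [h] <;> simp
  have hεc' : (ε' : ℂ) ≠ 0 := by
    rcases hε' with h | h <;> rw [h] <;> simp
  have hcc : (c : ℂ) ≠ 0 := by exact_mod_cast hc0.ne'
  have hlc : (l : ℂ) ≠ 0 := by exact_mod_cast hl0
  obtain ⟨g1, hg1⟩ := (agr hA hB hε hε' hεc hεc' hc0 hcc hr0 hr1 hr2 hcr hpr h1).conj
  obtain ⟨H, hH⟩ := diag hεc hεc' hcc h1 h2 h3 h4 hlc h5
  obtain ⟨g2, hg2⟩ := conj_linear hlc (by rwa [Complex.norm_real, Real.norm_eq_abs])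
  refine ⟨io (mc c hcc) * J, g2 * H * g1, ?_⟩
  have e1 : g1 * (io (mc c hcc) * J * A * (io (mc c hcc) * J)⁻¹ * B) * g1⁻¹ =
      io (mc c hcc) * J * io (af ε hεc) * (io (mc c hcc) * J)⁻¹ * io (af ε' hεc') := by
    rw [mul_inv_eq_iff_eq_mul]
    ext x
    exact hg1 x
  calc g2 * H * g1 * (io (mc c hcc) * J * A * (io (mc c hcc) * J)⁻¹ * B) * (g2 * H * g1)⁻¹
      = g2 * (H * (g1 * (io (mc c hcc) * J * A * (io (mc c hcc) * J)⁻¹ * B) * g1⁻¹) * H⁻¹) *
        g2⁻¹ := by group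
    _ = T0 := by rw [e1, hH, hg2]

end Pool.Agent.D0H72.SC
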