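import Pool.Agent.D0H72.SC.Basic
import Pool.Agent.N550.KH.Disc

/-! Local modifications: near each point, an element of the group agrees with a homeomorphism with
small support, up to the standard charts -/

set_option autoImplicit false

open Set Filter Topology Metric Function
open scoped OnePoint NNReal

noncomputable section

namespace Pool.Agent.D0H72.SC

open Pool.Agent.Helper984_CP Pool.Agent.D0H72.AP

/-- extension of a map close to the identity -/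
theorem base_ext : ∃ η : ℝ, 0 < η ∧ ∀ (ψ : ℂ → ℂ) (s : Set ℂ) (R : ℝ),
    (∀ z ∈ s, ∀ w ∈ s, ‖(ψ z - z) - (ψ w - w)‖ ≤ η * ‖z - w‖) →
    (∀ z ∈ s, ‖z‖ < R ∧ ‖ψ z - z‖ ≤ η * (R - ‖z‖)) →
    ∃ k : ℂ ≃ₜ ℂ, (∀ z ∈ s, k z = ψ z) ∧ ∀ z, R ≤ ‖z‖ → k z = z := by
  classical
  obtain ⟨c, hc0, hc⟩ : ∃ c : ℝ≥0, 0 < c ∧ lipschitzExtensionConstant ℂ * c <
      ‖(((ContinuousLinearEquiv.refl ℝ ℂ).symm : ℂ ≃L[ℝ] ℂ) : ℂ →L[ℝ] ℂ)‖₊⁻¹ := by
    have h1 : ‖(((ContinuousLinearEquiv.refl ℝ ℂ).symm : ℂ ≃L[ℝ] ℂ) : ℂ →L[ℝ] ℂ)‖₊ = 1 := by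
      have : (((ContinuousLinearEquiv.refl ℝ ℂ).symm : ℂ ≃L[ℝ] ℂ) : ℂ →L[ℝ] ℂ) =
          ContinuousLinearMap.id ℝ ℂ := rfl
      rw [this]
      apply NNReal.eq
      exact ContinuousLinearMap.norm_id
    have h2 : 0 < lipschitzExtensionConstant ℂ := lipschitzExtensionConstant_pos ℂ
    refine ⟨(lipschitzExtensionConstant ℂ)⁻¹ / 2, by positivity, ?_⟩
    rw [h1, inv_one, mul_div_assoc', mul_inv_cancel₀ h2.ne']
    exact NNReal.half_lt_self one_ne_zero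
  refine ⟨c, by exact_mod_cast hc0, fun ψ s R h1 h2 => ?_⟩
  obtain ⟨f, hf⟩ : ∃ f : ℂ → ℂ, f = fun z => if z ∈ s then ψ z else z := ⟨_, rfl⟩
  have hfs : ∀ z ∈ s, f z = ψ z := fun z hz => by rw [hf]; simp [hz]
  have hfn : ∀ z, R ≤ ‖z‖ → f z = z := fun z hz => by
    rw [hf]
    have : z ∉ s := fun h => absurd (h2 z h).1 (not_lt.2 hz)
    simp [this]
  have hap : ApproximatesLinearOn f ((ContinuousLinearEquiv.refl ℝ ℂ : ℂ ≃L[ℝ] ℂ) : ℂ →L[ℝ] ℂ)
      (s ∪ {z | R ≤ ‖z‖}) c := by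
    have key : ∀ z ∈ s, ∀ w, R ≤ ‖w‖ → ‖(f z - z) - (f w - w)‖ ≤ c * ‖z - w‖ := by
      intro z hz w hw
      rw [hfs z hz, hfn w hw, sub_self, sub_zero]
      refine (h2 z hz).2.trans ?_
      have h3 := norm_sub_norm_le w z
      rw [norm_sub_rev] at h3
      have : (0 : ℝ) ≤ c := c.2
      nlinarith
    intro z hz w hw
    have e : f z - f w - ((ContinuousLinearEquiv.refl ℝ ℂ : ℂ ≃L[ℝ] ℂ) : ℂ →L[ℝ] ℂ) (z - w) =
        (f z - z) - (f w - w) := by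
      change f z - f w - (z - w) = _
      ring
    rw [e]
    rcases hz with hz | hz <;> rcases hw with hw | hw
    · rw [hfs z hz, hfs w hw]
      exact h1 z hz w hw
    · exact key z hz w hw
    · have := key w hw z hz
      rwa [norm_sub_rev, norm_sub_rev w z] at this
    · rw [hfn z hz, hfn w hw, sub_self, sub_self, sub_zero, norm_zero]
      positivity
  obtain ⟨k, hk⟩ := hap.exists_homeomorph_extension (Or.inr hc)
  exact ⟨k, fun z hz => by rw [← hk (Or.inl hz), hfs z hz],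
    fun z hz => by rw [← hk (Or.inr hz), hfn z hz]⟩

theorem strict_bound {g : ℂ → ℂ} (hg : HasStrictDerivAt g 1 0) {η : ℝ} (hη : 0 < η) :
    ∃ δ : ℝ, 0 < δ ∧ ∀ z w : ℂ, ‖z‖ < δ → ‖w‖ < δ → ‖(g z - z) - (g w - w)‖ ≤ η * ‖z - w‖ := by
  obtain ⟨s, hs, h1⟩ := hg.hasStrictFDerivAt.approximates_deriv_on_nhds (c := ⟨η, hη.le⟩)
    (Or.inr hη)
  obtain ⟨δ, hδ, hδs⟩ := Metric.mem_nhds_iff.1 hs
  refine ⟨δ, hδ, fun z w hz hw => ?_⟩
  have h2 := h1 z (hδs (mem_ball_zero_iff.2 hz)) w (hδs (mem_ball_zero_iff.2 hw))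
  have e : (g z - z) - (g w - w) = g z - g w -
      (ContinuousLinearMap.toSpanSingleton ℂ (1 : ℂ)) (z - w) := by
    rw [ContinuousLinearMap.toSpanSingleton_apply, smul_eq_mul, mul_one]
    ring
  rw [e]
  exact h2

/-- a germ with derivative one -/
theorem ext_one {g : ℂ → ℂ} (hg : HasStrictDerivAt g 1 0) (h0 : g 0 = 0) {R : ℝ} (hR : 0 < R) :
    ∃ k : ℂ ≃ₜ ℂ, (∀ᶠ z in 𝓝 (0 : ℂ), k z = g z) ∧ ∀ z, R ≤ ‖z‖ → k z = z := by
  obtain ⟨η, hη, h⟩ := base_ext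
  obtain ⟨δ, hδ, h1⟩ := strict_bound hg hη
  obtain ⟨ρ, hρ, hρδ, hρR⟩ : ∃ ρ : ℝ, 0 < ρ ∧ ρ ≤ δ ∧ ρ ≤ R / 2 :=
    ⟨min δ (R / 2), by positivity, min_le_left _ _, min_le_right _ _⟩
  obtain ⟨k, hk1, hk2⟩ := h g (ball 0 ρ) R (fun z hz w hw => by
    rw [mem_ball_zero_iff] at hz hw
    exact h1 z w (by linarith) (by linarith)) (fun z hz => by
    rw [mem_ball_zero_iff] at hz
    refine ⟨by linarith, ?_⟩
    have h2 := h1 z 0 (by linarith) (by rw [norm_zero]; exact hδ)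
    rw [h0, sub_zero, sub_zero, sub_zero] at h2
    nlinarith)
  refine ⟨k, ?_, hk2⟩
  filter_upwards [ball_mem_nhds (0 : ℂ) hρ] with z hz
  exact hk1 z hz

/-- iterates near a fixed point -/
theorem ev_pow {k : ℂ ≃ₜ ℂ} {g : ℂ → ℂ} (hk : ∀ᶠ z in 𝓝 (0 : ℂ), k z = g z) (h0 : g 0 = 0)
    (n : ℕ) : ∀ᶠ z in 𝓝 (0 : ℂ), (k ^ n) z = g^[n] z := by
  induction n with
  | zero => exact Eventually.of_forall fun z => rfl
  | succ n ih =>
    have h1 : k 0 = 0 := by rw [hk.self_of_nhds, h0]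
    have h2 : (k ^ n) 0 = 0 := by
      have : ∀ m : ℕ, (k ^ m) 0 = 0 := by
        intro m
        induction m with
        | zero => rfl
        | succ m ihm =>
          rw [pow_succ']
          change k ((k ^ m) 0) = 0
          rw [ihm, h1]
      exact this n
    have h3 : Tendsto (k ^ n) (𝓝 0) (𝓝 0) := by
      have := (k ^ n).continuous.tendsto 0
      rwa [h2] at this
    filter_upwards [ih, h3.eventually hk] with z hz1 hz2
    rw [pow_succ', Function.iterate_succ_apply']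
    change k ((k ^ n) z) = _
    rw [hz2, hz1]

/-- local multiplication -/
theorem ext_mul {c : ℂ} (hc : c ≠ 0) {R : ℝ} (hR : 0 < R) :
    ∃ k : ℂ ≃ₜ ℂ, (∀ᶠ z in 𝓝 (0 : ℂ), k z = c * z) ∧ ∀ z, R ≤ ‖z‖ → k z = z := by
  obtain ⟨η, hη, h⟩ := base_ext
  obtain ⟨L, hL⟩ : ∃ L, Complex.exp L = c := ⟨Complex.log c, Complex.exp_log hc⟩
  have h1 : Tendsto (fun n : ℕ => Complex.exp (L / n) - 1) atTop (𝓝 0) := by
    have h2 : Tendsto (fun n : ℕ => L / (n : ℂ)) atTop (𝓝 0) := by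
      exact tendsto_const_div_atTop_nhds_zero_nat L
    have h3 := (Complex.continuous_exp.tendsto 0).comp h2
    rw [Complex.exp_zero] at h3
    have h4 := h3.sub_const 1
    rwa [sub_self] at h4
  obtain ⟨n, hn0, hn⟩ : ∃ n : ℕ, n ≠ 0 ∧ ‖Complex.exp (L / n) - 1‖ < η := by
    have h2 := h1.norm
    rw [norm_zero] at h2
    obtain ⟨n, hn, hn0⟩ := ((h2.eventually_lt_const hη).and (eventually_gt_atTop 0)).exists
    exact ⟨n, hn0.ne', hn⟩
  obtain ⟨a, ha⟩ : ∃ a, a = Complex.exp (L / n) := ⟨_, rfl⟩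
  rw [← ha] at hn
  have han : a ^ n = c := by
    rw [ha, ← Complex.exp_nat_mul, mul_div_cancel₀, hL]
    exact_mod_cast hn0
  obtain ⟨k, hk1, hk2⟩ := h (fun z => a * z) (ball 0 (R / 2)) R (fun z hz w hw => by
    have e : a * z - z - (a * w - w) = (a - 1) * (z - w) := by ring
    rw [e, norm_mul]
    gcongr) (fun z hz => by
    rw [mem_ball_zero_iff] at hz
    refine ⟨by linarith, ?_⟩
    have e : a * z - z = (a - 1) * z := by ring
    rw [e, norm_mul]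
    have : ‖z‖ ≤ R - ‖z‖ := by linarith
    gcongr)
  have hk3 : ∀ᶠ z in 𝓝 (0 : ℂ), k z = a * z := by
    filter_upwards [ball_mem_nhds (0 : ℂ) (half_pos hR)] with z hz
    exact hk1 z hz
  refine ⟨k ^ n, ?_, ?_⟩
  · filter_upwards [ev_pow hk3 (mul_zero a) n] with z hz
    rw [hz]
    have : ∀ m : ℕ, (fun z : ℂ => a * z)^[m] z = a ^ m * z := by
      intro m
      induction m with
      | zero => simp
      | succ m ih =>
        rw [Function.iterate_succ_apply', ih, pow_succ]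
        ring
    rw [this, han]
  · intro z hz
    have : ∀ m : ℕ, (k ^ m) z = z := by
      intro m
      induction m with
      | zero => rfl
      | succ m ih =>
        rw [pow_succ']
        change k ((k ^ m) z) = z
        rw [ih, hk2 z hz]
    exact this n

/-- a holomorphic germ -/
theorem ext_hol {g : ℂ → ℂ} {a : ℂ} (hg : HasStrictDerivAt g a 0) (ha : a ≠ 0) (h0 : g 0 = 0)
    {R : ℝ} (hR : 0 < R) :
    ∃ k : ℂ ≃ₜ ℂ, (∀ᶠ z in 𝓝 (0 : ℂ), k z = g z) ∧ ∀ z, R ≤ ‖z‖ → k z = z := by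
  have h1 : HasStrictDerivAt (fun z => a⁻¹ * g z) 1 0 := by
    have := hg.const_mul a⁻¹
    rwa [inv_mul_cancel₀ ha] at this
  obtain ⟨k1, hk1, hk2⟩ := ext_one h1 (by rw [h0, mul_zero]) hR
  obtain ⟨k2, hk3, hk4⟩ := ext_mul ha hR
  refine ⟨k1.trans k2, ?_, fun z hz => ?_⟩
  · have h2 : k1 0 = 0 := by
      rw [hk1.self_of_nhds, h0, mul_zero]
    have h3 : Tendsto k1 (𝓝 0) (𝓝 0) := by
      have := k1.continuous.tendsto 0
      rwa [h2] at this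
    filter_upwards [hk1, h3.eventually hk3] with z hz1 hz2
    rw [Homeomorph.trans_apply, hz2, hz1, mul_inv_cancel_left₀ ha]
  · rw [Homeomorph.trans_apply, hk2 z hz, hk4 z hz]

/-- local translation -/
theorem ext_add : ∃ η : ℝ, 0 < η ∧ ∀ (q : ℂ) (R : ℝ), 0 < R → ‖q‖ ≤ η * R →
    ∃ k : ℂ ≃ₜ ℂ, (∀ᶠ z in 𝓝 (0 : ℂ), k z = q + z) ∧ ∀ z, R ≤ ‖z‖ → k z = z := by
  obtain ⟨η, hη, h⟩ := base_ext
  refine ⟨η / 2, by positivity, fun q R hR hq => ?_⟩
  obtain ⟨k, hk1, hk2⟩ := h (fun z => q + z) (ball 0 (R / 2)) R (fun z hz w hw => by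
    have e : q + z - z - (q + w - w) = 0 := by ring
    rw [e, norm_zero]
    positivity) (fun z hz => by
    rw [mem_ball_zero_iff] at hz
    refine ⟨by linarith, ?_⟩
    have e : q + z - z = q := by ring
    rw [e]
    nlinarith)
  refine ⟨k, ?_, hk2⟩
  filter_upwards [ball_mem_nhds (0 : ℂ) (half_pos hR)] with z hz
  exact hk1 z hz

/-- a plane homeomorphism which fixes the origin -/
theorem ext_op {f : ℂ ≃ₜ ℂ} (hf : OP f) (h0 : f 0 = 0) {R : ℝ} (hR : 0 < R) :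
    ∃ k : ℂ ≃ₜ ℂ, (∀ᶠ z in 𝓝 (0 : ℂ), f z = k z) ∧ ∀ z, R ≤ ‖z‖ → k z = z := by
  obtain ⟨η, hη, hadd⟩ := ext_add
  obtain ⟨ε, hε, hεR, hεη⟩ : ∃ ε : ℝ, 0 < ε ∧ ε ≤ R ∧ ε ≤ η * R :=
    ⟨min R (η * R), by positivity, min_le_left _ _, min_le_right _ _⟩
  obtain ⟨ρ, hρ, hfρ⟩ : ∃ ρ : ℝ, 0 < ρ ∧ ∀ z : ℂ, ‖z‖ < ρ → ‖f z‖ < ε := by
    have h1 : ∀ᶠ z in 𝓝 (0 : ℂ), ‖f z‖ < ε := by
      apply (f.continuous.norm.tendsto 0).eventually_lt_const
      rw [h0, norm_zero]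
      exact hε
    obtain ⟨ρ, hρ, h⟩ := Metric.eventually_nhds_iff.1 h1
    exact ⟨ρ, hρ, fun z hz => h (by rwa [dist_zero_right])⟩
  obtain ⟨v, hv1, hv2⟩ := smooth0 hf 0 (ρ := ρ) (ρ' := ρ / 2) hρ (by linarith)
  have hv3 : ‖v 0‖ < ρ := by
    by_contra hc
    push Not at hc
    have h2 := hv1 (v 0) (by rwa [sub_zero])
    have h3 := v.injective h2
    rw [h3, norm_zero] at hc
    linarith
  have hU : ball (0 : ℂ) (ρ / 2) ∈ 𝓝 (0 : ℂ) := ball_mem_nhds _ (half_pos hρ)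
  have han := hv2.analyticAt hU
  have hd : deriv (fun z => f (v z)) 0 ≠ 0 :=
    Pool.Agent.N550.KH.Disc.inj_deriv' isOpen_ball hv2
      (fun x _ y _ h => v.injective (f.injective h)) (mem_ball_self (half_pos hρ))
  have hst : HasStrictDerivAt (fun z => f (v z) - f (v 0)) (deriv (fun z => f (v z)) 0) 0 := by
    exact han.hasStrictDerivAt.sub_const _
  obtain ⟨k1, hk1, hk2⟩ := ext_hol hst hd (sub_self _) hR
  obtain ⟨k2, hk3, hk4⟩ := hadd (f (v 0)) R hR ((hfρ _ hv3).le.trans hεη)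
  -- the homeomorphism `f v⁻¹ f⁻¹`
  obtain ⟨w, hw⟩ : ∃ w : ℂ ≃ₜ ℂ, ∀ z, w z = f (v.symm (f.symm z)) :=
    ⟨f.symm.trans (v.symm.trans f), fun z => rfl⟩
  have hw1 : ∀ z, R ≤ ‖z‖ → w z = z := by
    intro z hz
    rw [hw]
    have h2 : ρ ≤ ‖f.symm z‖ := by
      by_contra hc
      have := hfρ _ (not_le.1 hc)
      rw [f.apply_symm_apply] at this
      linarith
    have h3 : v.symm (f.symm z) = f.symm z := by
      rw [Homeomorph.symm_apply_eq]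
      exact (hv1 _ (by rwa [sub_zero])).symm
    rw [h3, f.apply_symm_apply]
  refine ⟨k1.trans (k2.trans w), ?_, fun z hz => ?_⟩
  · have h2 : k1 0 = 0 := by
      rw [hk1.self_of_nhds, sub_self]
    have h3 : Tendsto k1 (𝓝 0) (𝓝 0) := by
      have := k1.continuous.tendsto 0
      rwa [h2] at this
    filter_upwards [hk1, h3.eventually hk3] with z hz1 hz2
    rw [Homeomorph.trans_apply, Homeomorph.trans_apply, hz2, hz1, add_sub_cancel, hw,
      f.symm_apply_apply, v.symm_apply_apply]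
  · rw [Homeomorph.trans_apply, Homeomorph.trans_apply, hk2 z hz, hk4 z hz, hw1 z hz]

end Pool.Agent.D0H72.SC
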