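import Pool.Agent.D0H72.SC.Basic
import Pool.Agent.D0H72.SC.Germ
import Pool.Agent.D0H72.SC.Conj

/-! Linear contractions are conjugate to each other, and so are the contractions obtained from two
maps in normal form -/

set_option autoImplicit false

open Set Filter Topology Metric Function
open scoped OnePoint

noncomputable section

namespace Pool.Agent.D0H72.SC

open Pool.Agent.D0H72.AP

/-- the map `z ↦ z |z|^κ` -/
def pw (κ : ℂ) (z : ℂ) : ℂ := z * Complex.exp (κ * (Real.log ‖z‖ : ℂ))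

theorem norm_pw {κ : ℂ} (hκ : -1 < κ.re) (z : ℂ) : ‖pw κ z‖ = ‖z‖ ^ (1 + κ.re) := by
  by_cases hz : z = 0
  · rw [hz, pw, zero_mul, norm_zero, Real.zero_rpow (by linarith)]
  · have h1 : 0 < ‖z‖ := norm_pos_iff.2 hz
    rw [pw, norm_mul, Complex.norm_exp, Real.rpow_add h1, Real.rpow_one, Real.rpow_def_of_pos h1]
    congr 2
    simp [mul_comm]

theorem pw_zero (κ : ℂ) : pw κ 0 = 0 := by rw [pw, zero_mul]

theorem log_norm_pw {κ : ℂ} (hκ : -1 < κ.re) {z : ℂ} (hz : z ≠ 0) :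
    Real.log ‖pw κ z‖ = (1 + κ.re) * Real.log ‖z‖ := by
  rw [norm_pw hκ, Real.log_rpow (norm_pos_iff.2 hz)]

theorem pw_ne {κ : ℂ} {z : ℂ} (hz : z ≠ 0) : pw κ z ≠ 0 := mul_ne_zero hz (Complex.exp_ne_zero _)

theorem pw_pw {κ κ' : ℂ} (hκ : -1 < κ.re) (h : κ' * (1 + κ.re) = -κ) (z : ℂ) :
    pw κ' (pw κ z) = z := by
  by_cases hz : z = 0
  · rw [hz, pw_zero, pw_zero]
  · have h1 : pw κ' (pw κ z) = pw κ z * Complex.exp (κ' * (Real.log ‖pw κ z‖ : ℂ)) := rfl
    rw [h1, log_norm_pw hκ hz, pw, mul_assoc, ← Complex.exp_add]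
    have h2 : κ * (Real.log ‖z‖ : ℂ) + κ' * (((1 + κ.re) * Real.log ‖z‖ : ℝ) : ℂ) = 0 := by
      push_cast
      linear_combination (Real.log ‖z‖ : ℂ) * h
    rw [h2, Complex.exp_zero, mul_one]

theorem continuous_pw {κ : ℂ} (hκ : -1 < κ.re) : Continuous (pw κ) := by
  rw [continuous_iff_continuousAt]
  intro z
  by_cases hz : z = 0
  · subst hz
    have h1 : Tendsto (fun z : ℂ => ‖pw κ z‖) (𝓝 0) (𝓝 0) := by
      have h2 : (fun z : ℂ => ‖pw κ z‖) = fun z => ‖z‖ ^ (1 + κ.re) := funext (norm_pw hκ)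
      rw [h2]
      have h3 : Continuous fun z : ℂ => ‖z‖ ^ (1 + κ.re) :=
        continuous_norm.rpow_const fun _ => Or.inr (by linarith)
      have h4 := h3.tendsto 0
      rwa [norm_zero, Real.zero_rpow (by linarith)] at h4
    have h5 := tendsto_zero_iff_norm_tendsto_zero.2 h1
    change Tendsto (pw κ) (𝓝 0) (𝓝 (pw κ 0))
    rw [pw_zero]
    exact h5
  · have h1 : ‖z‖ ≠ 0 := norm_ne_zero_iff.2 hz
    unfold pw
    apply ContinuousAt.mul continuousAt_id
    apply Complex.continuous_exp.continuousAt.comp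
    apply ContinuousAt.mul continuousAt_const
    exact Complex.continuous_ofReal.continuousAt.comp
      ((Real.continuousAt_log h1).comp continuous_norm.continuousAt)

theorem exists_pw {κ : ℂ} (hκ : -1 < κ.re) : ∃ h : ℂ ≃ₜ ℂ, ∀ z, h z = pw κ z := by
  have h0 : (0 : ℝ) < 1 + κ.re := by linarith
  have h0' : ((1 + κ.re : ℝ) : ℂ) ≠ 0 := by exact_mod_cast h0.ne'
  obtain ⟨κ', hκ'⟩ : ∃ κ', κ' = -κ / ((1 + κ.re : ℝ) : ℂ) := ⟨_, rfl⟩
  have h1 : κ'.re = -κ.re / (1 + κ.re) := by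
    rw [hκ', Complex.div_ofReal_re, Complex.neg_re]
  have h2 : -1 < κ'.re := by
    rw [h1, lt_div_iff₀ h0]
    linarith
  have h3 : κ' * (1 + κ.re) = -κ := by
    rw [hκ']
    push_cast at h0' ⊢
    field_simp
  have h4 : κ * (1 + κ'.re) = -κ' := by
    have h5 : ((1 + κ'.re : ℝ) : ℂ) = (((1 + κ.re)⁻¹ : ℝ) : ℂ) := by
      congr 1
      rw [h1]
      field_simp
      ring
    push_cast at h5 h0'
    rw [h5, hκ']
    push_cast
    field_simp
  exact ⟨⟨⟨pw κ, pw κ', pw_pw hκ h3, pw_pw h2 h4⟩, continuous_pw hκ, continuous_pw h2⟩,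
    fun z => rfl⟩

/-- multiplication by a nonzero number -/
def mc (c : ℂ) (hc : c ≠ 0) : ℂ ≃ₜ ℂ := aff c 0 hc

theorem mc_apply {c : ℂ} (hc : c ≠ 0) (z : ℂ) : mc c hc z = c * z := by
  rw [mc, aff_apply, add_zero]

theorem mc_inv_apply {c : ℂ} (hc : c ≠ 0) (z : ℂ) : (mc c hc)⁻¹ z = z / c := by
  change (mc c hc).symm z = z / c
  rw [mc, aff_symm_apply, sub_zero]

/-- the standard contraction -/
def T0 : X ≃ₜ X := io (mc (1 / 2) (by norm_num))

theorem conj_linear {l : ℂ} (hl : l ≠ 0) (h1 : ‖l‖ < 1) : ∃ g : X ≃ₜ X,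
    g * io (mc l hl) * g⁻¹ = T0 := by
  have hL : Real.log ‖l‖ < 0 := Real.log_neg (norm_pos_iff.2 hl) h1
  have hL' : (Real.log ‖l‖ : ℂ) ≠ 0 := by exact_mod_cast hL.ne
  obtain ⟨κ, hκ⟩ : ∃ κ, κ = Complex.log (1 / (2 * l)) / (Real.log ‖l‖ : ℂ) := ⟨_, rfl⟩
  have h2 : -1 < κ.re := by
    rw [hκ, Complex.div_ofReal_re, Complex.log_re, norm_div, norm_one, norm_mul, one_div,
      Real.log_inv, Real.log_mul (by simp) (norm_ne_zero_iff.2 hl), lt_div_iff_of_neg hL]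
    have : Real.log ‖(2 : ℂ)‖ = Real.log 2 := by simp
    rw [this]
    have := Real.log_pos one_lt_two
    linarith
  obtain ⟨h, hh⟩ := exists_pw h2
  refine ⟨io h, ?_⟩
  rw [mul_inv_eq_iff_eq_mul, T0, ← map_mul, ← map_mul]
  congr 1
  ext z
  change h (mc l hl z) = mc (1 / 2) (by norm_num) (h z)
  rw [mc_apply, mc_apply, hh, hh]
  by_cases hz : z = 0
  · rw [hz, mul_zero, pw_zero, mul_zero]
  · have h3 : Complex.exp (κ * (Real.log ‖l‖ : ℂ)) = 1 / (2 * l) := by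
      rw [hκ, div_mul_cancel₀ _ hL', Complex.exp_log]
      exact one_div_ne_zero (mul_ne_zero two_ne_zero hl)
    rw [pw, pw, norm_mul, Real.log_mul (norm_ne_zero_iff.2 hl) (norm_ne_zero_iff.2 hz)]
    push_cast
    rw [mul_add, Complex.exp_add, h3]
    field_simp

/-- two homeomorphisms which agree outside a finite set -/
theorem ext_dense {A B : X ≃ₜ X} {s : Set ℂ} (hs : s.Finite)
    (h : ∀ z : ℂ, z ∉ s → A (z : X) = B (z : X)) : A = B := by
  have h1 : Dense (sᶜ : Set ℂ) := hs.countable.dense_compl ℝ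
  have h2 : Dense (((↑) : ℂ → X) '' sᶜ) :=
    OnePoint.denseRange_coe.dense_image OnePoint.continuous_coe h1
  have h3 : (A : X → X) = B := by
    apply Continuous.ext_on h2 A.continuous B.continuous
    rintro _ ⟨z, hz, rfl⟩
    exact h z hz
  ext x
  exact congrFun h3 x

end Pool.Agent.D0H72.SC
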