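import Pool.Agent.D0H72.SC.Normal

/-! The homeomorphisms of the sphere isotopic to the identity belong to the group -/

set_option autoImplicit false

open Set Filter Topology Metric Function
open scoped OnePoint

noncomputable section

namespace Pool.Agent.D0H72.SC

open Pool.Agent.Helper984_CP Pool.Agent.D0H72.AP

/-- the winding number decides -/
theorem iso_of_wind {f : ℂ ≃ₜ ℂ} {φ : ℝ → ℝ} (hφ1 : Continuous φ)
    (hφ2 : ∀ θ : ℝ, φ (θ + 2 * Real.pi) = φ θ + 2 * Real.pi)
    (hφ3 : ∀ θ : ℝ, f (Complex.exp (θ * Complex.I)) - f 0 =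
      (‖f (Complex.exp (θ * Complex.I)) - f 0‖ : ℂ) * Complex.exp (φ θ * Complex.I)) : Iso f := by
  rcases kneser (h := toC f) ⟨toC f.symm, fun x => f.apply_symm_apply x,
    fun x => f.symm_apply_apply x⟩ with h | h
  · exact h
  · exfalso
    obtain ⟨ℓ, hℓ⟩ := h.exists_logDiff
    -- the pair of the point `exp (-iθ)` and the origin
    obtain ⟨P, hP, hP1, hP2⟩ : ∃ P : ℝ → Pool.Agent.Helper984_CP.Conf, Continuous P ∧
        (∀ θ, (P θ).1.1 = Complex.exp (-(θ * Complex.I))) ∧ ∀ θ, (P θ).1.2 = 0 := by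
      refine ⟨fun θ => ⟨(Complex.exp (-(θ * Complex.I)), 0), Complex.exp_ne_zero _⟩, ?_,
        fun θ => rfl, fun θ => rfl⟩
      fun_prop
    have key : ∀ θ : ℝ, Complex.exp ((((ℓ (P θ)).im - θ - φ θ : ℝ) : ℂ) * Complex.I) = 1 := by
      intro θ
      have h1 := hℓ (P θ)
      simp only [ContinuousMap.comp_apply, Pool.Agent.Helper984_CP.conjC_apply, hP1, hP2,
        sub_zero, map_zero] at h1
      have h2 : (starRingEnd ℂ) (Complex.exp (-(θ * Complex.I))) =
          Complex.exp (θ * Complex.I) := by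
        rw [← Complex.exp_conj]
        simp
      rw [h2] at h1
      change _ = f (Complex.exp (θ * Complex.I)) - f 0 at h1
      rw [hφ3 θ] at h1
      obtain ⟨R, hR⟩ : ∃ R : ℝ, R = ‖f (Complex.exp (θ * Complex.I)) - f 0‖ := ⟨_, rfl⟩
      rw [← hR] at h1
      have hR0 : 0 < R := by
        rw [hR, norm_pos_iff, sub_ne_zero]
        exact fun h => Complex.exp_ne_zero _ (f.injective h)
      have h3 := congrArg norm h1
      rw [norm_mul, norm_mul, Complex.norm_exp, Complex.norm_exp, Complex.norm_real,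
        Real.norm_of_nonneg hR0.le, Complex.norm_exp_ofReal_mul_I] at h3
      have h4 : Real.exp (ℓ (P θ)).re = R := by
        simpa using h3
      have h5 : Complex.exp (ℓ (P θ)) = (R : ℂ) * Complex.exp (((ℓ (P θ)).im : ℂ) * Complex.I) := by
        rw [← h4, Complex.ofReal_exp, ← Complex.exp_add, Complex.re_add_im]
      rw [h5, mul_assoc] at h1
      have h6 := mul_left_cancel₀ (by exact_mod_cast hR0.ne') h1
      rw [← Complex.exp_add] at h6
      have h7 : (((ℓ (P θ)).im - θ - φ θ : ℝ) : ℂ) * Complex.I =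
          (((ℓ (P θ)).im : ℂ) * Complex.I + -(θ * Complex.I)) - φ θ * Complex.I := by
        push_cast
        ring
      rw [h7, Complex.exp_sub, h6, div_self (Complex.exp_ne_zero _)]
    have hG : Continuous fun θ : ℝ => (ℓ (P θ)).im - θ - φ θ := by
      have := Complex.continuous_im
      fun_prop
    have hconst : ∀ θ : ℝ, (ℓ (P θ)).im - θ - φ θ = (ℓ (P 0)).im - 0 - φ 0 := by
      have hint : ∀ θ : ℝ, ∃ k : ℤ, ((ℓ (P θ)).im - θ - φ θ) / (2 * Real.pi) = k := by
        intro θ
        obtain ⟨k, hk⟩ := Complex.exp_eq_one_iff.1 (key θ)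
        refine ⟨k, ?_⟩
        have h1 : (((ℓ (P θ)).im - θ - φ θ : ℝ) : ℂ) = ((k * (2 * Real.pi) : ℝ) : ℂ) := by
          apply mul_right_cancel₀ Complex.I_ne_zero
          rw [hk]
          push_cast
          ring
        have h2 : (ℓ (P θ)).im - θ - φ θ = k * (2 * Real.pi) := by exact_mod_cast h1
        rw [h2, mul_div_cancel_right₀ _ (by positivity)]
      choose k hk using hint
      have hkc : Continuous k := by
        have h1 : Continuous fun θ : ℝ => ((k θ : ℤ) : ℝ) := by
          have h2 : (fun θ : ℝ => ((k θ : ℤ) : ℝ)) =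
              fun θ : ℝ => ((ℓ (P θ)).im - θ - φ θ) / (2 * Real.pi) := by
            funext θ
            rw [hk]
          rw [h2]
          exact hG.div_const _
        exact Int.isClosedEmbedding_coe_real.isInducing.continuous_iff.2 h1
      intro θ
      have h1 : k θ = k 0 := PreconnectedSpace.constant inferInstance hkc
      have h2 := hk θ
      have h3 := hk 0
      rw [h1, ← h3] at h2
      exact (div_left_inj' (by positivity)).1 h2
    have h1 := hconst (2 * Real.pi)
    have h2 : P (2 * Real.pi) = P 0 := by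
      apply Subtype.ext
      apply Prod.ext
      · rw [hP1, hP1]
        simp only [Complex.ofReal_mul, Complex.ofReal_ofNat, Complex.ofReal_zero, zero_mul,
          neg_zero, Complex.exp_zero]
        rw [Complex.exp_neg, Complex.exp_two_pi_mul_I, inv_one]
      · rw [hP2, hP2]
    have h3 := hφ2 0
    rw [zero_add] at h3
    rw [h2, h3] at h1
    linarith [Real.pi_pos]

/-- close to the identity on the unit disc -/
theorem iso_of_close {f : ℂ ≃ₜ ℂ} (hf : ∀ z : ℂ, ‖z‖ ≤ 1 → ‖f z - z‖ ≤ 1 / 10) : Iso f := by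
  obtain ⟨e, he⟩ : ∃ e : ℝ → ℂ, e = fun θ : ℝ => Complex.exp (θ * Complex.I) := ⟨_, rfl⟩
  have hez : ∀ θ, e θ = Complex.exp (θ * Complex.I) := fun θ => by rw [he]
  have he0 : ∀ θ, e θ ≠ 0 := fun θ => by rw [hez]; exact Complex.exp_ne_zero _
  have hen : ∀ θ, ‖e θ‖ = 1 := fun θ => by rw [hez]; exact Complex.norm_exp_ofReal_mul_I θ
  have hec : Continuous e := by rw [he]; fun_prop
  have hep : ∀ θ, e (θ + 2 * Real.pi) = e θ := by
    intro θ
    rw [hez, hez]
    push_cast
    rw [add_mul, Complex.exp_add, Complex.exp_two_pi_mul_I, mul_one]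
  obtain ⟨q, hq⟩ : ∃ q : ℝ → ℂ, q = fun θ => (f (e θ) - f 0) / e θ := ⟨_, rfl⟩
  have hqz : ∀ θ, q θ = (f (e θ) - f 0) / e θ := fun θ => by rw [hq]
  have hqc : Continuous q := by
    rw [hq]
    exact ((f.continuous.comp hec).sub continuous_const).div hec he0
  have hq1 : ∀ θ, ‖q θ - 1‖ ≤ 1 / 5 := by
    intro θ
    have e1 : q θ - 1 = ((f (e θ) - e θ) - (f 0 - 0)) / e θ := by
      rw [hqz]
      field_simp [he0 θ]
      ring
    rw [e1, norm_div, hen, div_one]
    have h1 := norm_sub_le (f (e θ) - e θ) (f 0 - 0)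
    have h2 := hf (e θ) (hen θ).le
    have h3 := hf 0 (by rw [norm_zero]; exact zero_le_one)
    linarith
  have hqs : ∀ θ, q θ ∈ Complex.slitPlane := by
    intro θ
    left
    have h1 := (Complex.abs_re_le_norm (q θ - 1)).trans (hq1 θ)
    rw [Complex.sub_re, Complex.one_re] at h1
    have := (abs_le.1 h1).1
    linarith
  apply iso_of_wind (φ := fun θ => θ + Complex.arg (q θ))
  · apply continuous_id.add
    rw [continuous_iff_continuousAt]
    intro θ
    exact (Complex.continuousAt_arg (hqs θ)).comp hqc.continuousAt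
  · intro θ
    have h1 : q (θ + 2 * Real.pi) = q θ := by
      rw [hqz, hqz, hep]
    simp only [h1]
    ring
  · intro θ
    rw [← hez]
    have h1 : f (e θ) - f 0 = e θ * q θ := by
      rw [hqz]
      field_simp [he0 θ]
    rw [h1, norm_mul, hen, one_mul]
    have h2 := Complex.norm_mul_exp_arg_mul_I (q θ)
    push_cast
    rw [add_mul, Complex.exp_add, ← hez]
    calc e θ * q θ = e θ * ((‖q θ‖ : ℂ) * Complex.exp (Complex.arg (q θ) * Complex.I)) := by rw [h2]
      _ = _ := by ring

/-- neighbourhood of the identity -/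
theorem near_one : ∀ᶠ φ in 𝓝 (ContinuousMap.id X), ∀ g : X ≃ₜ X, (∀ x, φ x = g x) → g ∈ Gr := by
  have h1 : ∀ᶠ φ in 𝓝 (ContinuousMap.id X), φ ∞ ∈ (((↑) : ℂ → X) '' closedBall 0 100)ᶜ := by
    have hc : Continuous fun φ : C(X, X) => φ ∞ := continuous_eval_const ∞
    apply hc.continuousAt.eventually_mem
    apply IsOpen.mem_nhds
    · exact ((isCompact_closedBall 0 100).image OnePoint.continuous_coe).isClosed.isOpen_compl
    · rintro ⟨z, -, hz⟩
      exact OnePoint.coe_ne_infty z hz
  have h2 : ∀ᶠ φ in 𝓝 (ContinuousMap.id X), ∀ x ∈ ((↑) : ℂ → X) '' closedBall 0 1,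
      (x, φ x) ∈ Prod.map ((↑) : ℂ → X) ((↑) : ℂ → X) '' {q : ℂ × ℂ | ‖q.2 - q.1‖ < 1 / 100} := by
    apply ((isCompact_closedBall (0 : ℂ) 1).image OnePoint.continuous_coe)
      |>.eventually_forall_of_forall_eventually
    rintro _ ⟨z, -, rfl⟩
    have hc : Continuous fun q : C(X, X) × X => (q.2, q.1 q.2) := by fun_prop
    apply hc.continuousAt.eventually_mem
    apply IsOpen.mem_nhds
    · apply (OnePoint.isOpenEmbedding_coe.prodMap OnePoint.isOpenEmbedding_coe).isOpenMap
      exact isOpen_lt (by fun_prop) continuous_const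
    · refine ⟨(z, z), ?_, rfl⟩
      simp
  filter_upwards [h1, h2] with φ hφ1 hφ2 g hg
  have hg1 : g ∞ ∉ ((↑) : ℂ → X) '' closedBall 0 100 := by
    rw [← hg]
    exact hφ1
  have hg2 : ∀ z : ℂ, ‖z‖ ≤ 1 → ∃ w : ℂ, g (z : X) = (w : X) ∧ ‖w - z‖ < 1 / 100 := by
    intro z hz
    obtain ⟨⟨a, b⟩, h3, h4⟩ := hφ2 (z : X) ⟨z, mem_closedBall_zero_iff.2 hz, rfl⟩
    rw [Prod.map_apply, Prod.mk.injEq] at h4
    refine ⟨b, ?_, ?_⟩
    · rw [← hg]
      exact h4.2.symm
    · rw [← OnePoint.coe_injective h4.1]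
      exact h3
  by_cases hinf : g ∞ = ∞
  · obtain ⟨f, rfl⟩ := exists_io hinf
    apply io_mem
    apply iso_of_close
    intro z hz
    obtain ⟨w, h3, h4⟩ := hg2 z hz
    rw [io_coe] at h3
    rw [OnePoint.coe_injective h3]
    linarith
  · obtain ⟨p, hp⟩ := OnePoint.ne_infty_iff_exists.1 hinf
    have hpn : 100 < ‖p‖ := by
      by_contra hc
      apply hg1
      rw [← hp]
      exact ⟨p, mem_closedBall_zero_iff.2 (not_lt.1 hc), rfl⟩
    have hp0 : p ≠ 0 := by
      rintro rfl
      rw [norm_zero] at hpn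
      linarith
    obtain ⟨r, hr⟩ : ∃ r, r = J * io (tr p⁻¹) * J := ⟨_, rfl⟩
    have hrG : r ∈ Gr := by
      rw [hr]
      exact mul_mem (mul_mem J_mem (io_mem (Iso.tr _))) J_mem
    have hri : r⁻¹ = J * io (tr p⁻¹)⁻¹ * J := by
      rw [hr, mul_inv_rev, mul_inv_rev, J_inv, map_inv, mul_assoc]
    have hr1 : r⁻¹ ((p : ℂ) : X) = ∞ := by
      rw [hri]
      change J (io (tr p⁻¹)⁻¹ (J p)) = ∞
      rw [J_coe hp0, io_coe, tr_inv_apply, sub_self, J_zero]
    have hr2 : ∀ w : ℂ, w ≠ p → r⁻¹ (w : X) = ((w * p / (p - w) : ℂ) : X) := by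
      intro w hw
      rw [hri]
      change J (io (tr p⁻¹)⁻¹ (J w)) = _
      by_cases hw0 : w = 0
      · rw [hw0, J_zero, io_infty, J_infty, zero_mul, zero_div]
      · have h3 : p - w ≠ 0 := sub_ne_zero.2 (Ne.symm hw)
        have h4 : w⁻¹ - p⁻¹ = (p - w) / (w * p) := by field_simp
        rw [J_coe hw0, io_coe, tr_inv_apply, h4, J_coe (div_ne_zero h3 (mul_ne_zero hw0 hp0)),
          inv_div]
    have hg' : (r⁻¹ * g) ∞ = ∞ := by
      change r⁻¹ (g ∞) = ∞
      rw [← hp, hr1]
    obtain ⟨f, hf⟩ := exists_io hg'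
    have hfI : Iso f := by
      apply iso_of_close
      intro z hz
      obtain ⟨w, h3, h4⟩ := hg2 z hz
      have hwn : ‖w‖ ≤ 2 := by
        have := norm_le_norm_add_norm_sub' w z
        linarith
      have hwp : w ≠ p := by
        rintro rfl
        linarith
      have h5 : ((f z : ℂ) : X) = ((w * p / (p - w) : ℂ) : X) := by
        rw [← io_coe, hf]
        change r⁻¹ (g z) = _
        rw [h3, hr2 w hwp]
      have h6 := OnePoint.coe_injective h5
      have h7 : p - w ≠ 0 := sub_ne_zero.2 (Ne.symm hwp)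
      have h8 : f z - z = w * w / (p - w) + (w - z) := by
        rw [h6]
        field_simp
        ring
      have h9 : 98 ≤ ‖p - w‖ := by
        have := norm_sub_norm_le p w
        linarith
      have h10 : ‖w * w / (p - w)‖ ≤ 4 / 98 := by
        rw [norm_div, norm_mul]
        apply div_le_div₀ (by norm_num) _ (by norm_num) h9
        nlinarith [norm_nonneg w]
      rw [h8]
      have := norm_add_le (w * w / (p - w)) (w - z)
      linarith
    have hgr : g = r * io f := by
      rw [hf]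
      group
    rw [hgr]
    exact mul_mem hrG (io_mem hfI)

/-- a homeomorphism of the sphere as a continuous map -/
def cm (g : X ≃ₜ X) : C(X, X) := ⟨g, g.continuous⟩

theorem mem_of_path {A : X ≃ₜ X} (h : JoinedIn (range cm) (cm 1) (cm A)) : A ∈ Gr := by
  obtain ⟨γ, hγ⟩ := h
  choose h hh using hγ
  have hloc : IsLocallyConstant fun t : unitInterval => h t ∈ Gr := by
    rw [IsLocallyConstant.iff_eventually_eq]
    intro t
    have h1 : Continuous fun s : unitInterval => (γ s).comp (cm (h t)⁻¹) :=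
      (ContinuousMap.continuous_precomp _).comp γ.continuous
    have h2 : (γ t).comp (cm (h t)⁻¹) = ContinuousMap.id X := by
      rw [← hh t]
      ext x
      exact (h t).apply_symm_apply x
    have h3 := h1.tendsto t
    rw [h2] at h3
    filter_upwards [h3.eventually near_one] with s hs
    have h4 : h s * (h t)⁻¹ ∈ Gr := by
      apply hs
      intro x
      rw [← hh s]
      rfl
    apply propext
    constructor
    · intro h5
      have h6 := mul_mem (inv_mem h4) h5
      simpa using h6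
    · intro h5
      have h6 := mul_mem h4 h5
      simpa using h6
  have h0 : h 0 = 1 := by
    have h1 := hh 0
    rw [γ.source] at h1
    ext x
    exact congrArg (fun T : C(X, X) => T x) h1
  have h1 : h 1 = A := by
    have h1 := hh 1
    rw [γ.target] at h1
    ext x
    exact congrArg (fun T : C(X, X) => T x) h1
  have h2 := hloc.apply_eq_of_preconnectedSpace 1 0
  simp only [h0, h1] at h2
  rw [h2]
  exact one_mem _

end Pool.Agent.D0H72.SC
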