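import Pool.Agent.D0H72.SC.Key2

/-! The normal form -/

set_option autoImplicit false

open Set Filter Topology Metric Function
open scoped OnePoint

noncomputable section

namespace Pool.Agent.D0H72.SC

open Pool.Agent.Helper984_CP Pool.Agent.D0H72.AP

theorem Iso.inv {f : ℂ ≃ₜ ℂ} (hf : Iso f) : Iso f⁻¹ :=
  IsoId.inv (f := toC f) (fi := toC f.symm) hf fun x => f.apply_symm_apply x

/-- transitivity on triples -/
theorem move3 {p q r : X} (h1 : p ≠ q) (h2 : p ≠ r) (h3 : q ≠ r) :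
    ∃ C ∈ Gr, C p = o ∧ C q = ((1 : ℂ) : X) ∧ C r = ((-1 : ℂ) : X) := by
  obtain ⟨C1, hC1, hp⟩ : ∃ C1 ∈ Gr, C1 p = ∞ := by
    induction p using OnePoint.rec with
    | infty => exact ⟨1, one_mem _, rfl⟩
    | coe a =>
      refine ⟨J * io (tr (-a)), mul_mem J_mem (io_mem (Iso.tr _)), ?_⟩
      change J (io (tr (-a)) a) = ∞
      rw [io_coe, tr_apply, add_neg_cancel, J_zero]
  have hq : C1 q ≠ ∞ := by
    rw [← hp]
    exact fun h => h1 (C1.injective h).symm
  have hr : C1 r ≠ ∞ := by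
    rw [← hp]
    exact fun h => h2 (C1.injective h).symm
  obtain ⟨b, hb⟩ := OnePoint.ne_infty_iff_exists.1 hq
  obtain ⟨d, hd⟩ := OnePoint.ne_infty_iff_exists.1 hr
  have hbd : b - d ≠ 0 := by
    rw [sub_ne_zero]
    rintro rfl
    exact h3 (C1.injective (by rw [← hb, ← hd]))
  have hα : 2 / (b - d) ≠ 0 := div_ne_zero two_ne_zero hbd
  refine ⟨J * io (aff (2 / (b - d)) (1 - 2 / (b - d) * b) hα) * C1,
    mul_mem (mul_mem J_mem (io_mem (Iso.aff _ _ _))) hC1, ?_, ?_, ?_⟩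
  · change J (io _ (C1 p)) = o
    rw [hp, io_infty, J_infty]
  · change J (io _ (C1 q)) = _
    rw [← hb, io_coe, aff_apply, add_sub_cancel, J_coe one_ne_zero, inv_one]
  · change J (io _ (C1 r)) = _
    have e : 2 / (b - d) * d + (1 - 2 / (b - d) * b) = -1 := by
      field_simp
      ring
    rw [← hd, io_coe, aff_apply, e, J_coe (by norm_num)]
    congr 1
    norm_num

/-- prescribing the germ of an element of the group at a point -/
theorem prescribe {A : X ≃ₜ X} (hA : LSx A) {s t : ℂ} (hst : A (s : X) = (t : X)) {a : ℂ ≃ₜ ℂ}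
    (ha : Iso a) (has : a s = t) {W : Set X} (hW : W ∈ 𝓝 ((t : ℂ) : X)) :
    ∃ L : X ≃ₜ X, (∀ y, y ∉ W → L y = y) ∧ ∀ᶠ z in 𝓝 ((s : ℂ) : X), L (A z) = io a z := by
  have hB : LS ((io (tr s))⁻¹ * (io a)⁻¹ * A * io (tr s)) := by
    have h1 := hA (s : X)
    rw [hst, ch_coe, ch_coe] at h1
    have h2 : LS (io ((tr s)⁻¹ * a⁻¹ * tr t)) := by
      apply LS.of_iso (((Iso.tr s).inv.mul ha.inv).mul (Iso.tr t))
      change (tr s)⁻¹ (a⁻¹ (tr t 0)) = 0
      have h3 : a⁻¹ t = s := by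
        change a.symm t = s
        rw [Homeomorph.symm_apply_eq, has]
      rw [tr_apply, zero_add, h3, tr_inv_apply, sub_self]
    have h3 := h2.mul h1
    have e : io ((tr s)⁻¹ * a⁻¹ * tr t) * ((io (tr t))⁻¹ * A * io (tr s)) =
        (io (tr s))⁻¹ * (io a)⁻¹ * A * io (tr s) := by
      simp only [map_mul, map_inv]
      group
    rwa [e] at h3
  obtain ⟨m, hm⟩ : ∃ m, m = io a * io (tr s) := ⟨_, rfl⟩
  have hmo : m o = (t : X) := by
    rw [hm]
    change io a (io (tr s) o) = _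
    rw [io_coe, tr_apply, zero_add, io_coe, has]
  have hW' : m ⁻¹' W ∈ 𝓝 o := by
    apply m.continuous.continuousAt
    rwa [hmo]
  obtain ⟨k, hk1, hk2⟩ := hB.2 _ hW'
  refine ⟨m * k⁻¹ * m⁻¹, fun y hy => ?_, ?_⟩
  · have h1 : k (m⁻¹ y) = m⁻¹ y := by
      apply hk1
      intro h
      apply hy
      change m (m.symm y) ∈ W at h
      rwa [m.apply_symm_apply] at h
    have h2 : k⁻¹ (m⁻¹ y) = m⁻¹ y := by
      change k.symm (m⁻¹ y) = m⁻¹ y
      rw [Homeomorph.symm_apply_eq, h1]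
    change m (k⁻¹ (m⁻¹ y)) = y
    rw [h2]
    exact m.apply_symm_apply y
  · have h1 : Tendsto ((io (tr s))⁻¹ : X ≃ₜ X) (𝓝 (s : X)) (𝓝 o) := by
      have h2 : (io (tr s))⁻¹ (s : X) = o := by
        rw [← map_inv, io_coe, tr_inv_apply, sub_self]
      have h3 := ((io (tr s))⁻¹ : X ≃ₜ X).continuous.tendsto (s : X)
      rwa [h2] at h3
    filter_upwards [h1.eventually hk2] with z hz
    obtain ⟨u, hu⟩ : ∃ u, u = (io (tr s))⁻¹ z := ⟨_, rfl⟩
    rw [← hu] at hz
    have hzu : z = io (tr s) u := by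
      rw [hu]
      exact ((io (tr s)).apply_symm_apply z).symm
    have h2 : A z = m (k u) := by
      rw [← hz, hzu, hm]
      change A (io (tr s) u) = io a (io (tr s) ((io (tr s)).symm ((io a).symm (A (io (tr s) u)))))
      rw [Homeomorph.apply_symm_apply, Homeomorph.apply_symm_apply]
    change m (k⁻¹ (m⁻¹ (A z))) = _
    rw [h2]
    have h3 : m⁻¹ (m (k u)) = k u := m.symm_apply_apply _
    have h4 : k⁻¹ (k u) = u := k.symm_apply_apply _
    rw [h3, h4, hm, hzu]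
    rfl

theorem nf_of_ev {A : X ≃ₜ X} {ε : ℝ} {a : ℂ ≃ₜ ℂ} (ha : ∀ z, a z = 1 + ε * z)
    (h1 : ∀ᶠ z in 𝓝 o, A z = io a z) (h2 : ∀ᶠ z in 𝓝 ((-ε : ℂ) : X), A z = io a z) :
    ∃ δ : ℝ, 0 < δ ∧ Nf A ε δ := by
  rw [OnePoint.nhds_coe_eq, eventually_map] at h1 h2
  obtain ⟨δ1, hδ1, h3⟩ := Metric.eventually_nhds_iff.1 h1
  obtain ⟨δ2, hδ2, h4⟩ := Metric.eventually_nhds_iff.1 h2
  refine ⟨min δ1 δ2 / 2, by positivity, fun z hz => ?_⟩
  have hm1 := min_le_left δ1 δ2
  have hm2 := min_le_right δ1 δ2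
  have hm0 : 0 < min δ1 δ2 := lt_min hδ1 hδ2
  rcases hz with hz | hz
  · rw [h3 (by rw [dist_zero_right]; linarith), io_coe, ha]
  · rw [h4 (by rw [dist_eq_norm, sub_neg_eq_add]; linarith), io_coe, ha]

theorem coe_nhds_compl {s t : ℂ} (h : s ≠ t) : ∃ W : Set X, W ∈ 𝓝 (s : X) ∧ Wᶜ ∈ 𝓝 (t : X) := by
  have h1 : (s : X) ≠ (t : X) := fun hh => h (OnePoint.coe_injective hh)
  obtain ⟨u, v, hu, hv, hsu, htv, huv⟩ := t2_separation h1
  exact ⟨u, hu.mem_nhds hsu, mem_of_superset (hv.mem_nhds htv)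
    (fun x hx hxu => Set.disjoint_left.1 huv hxu hx)⟩

theorem normal_form {A : X ≃ₜ X} (hA : A ∈ Gr) (h1 : A ≠ 1) : ∃ (D : X ≃ₜ X) (ε δ : ℝ),
    (ε = 1 ∨ ε = -1) ∧ 0 < δ ∧ Nf (D * A * D⁻¹) ε δ := by
  have hinv : ∀ (L : X ≃ₜ X) (y : X), L y = y → L⁻¹ y = y := by
    intro L y h
    change L.symm y = y
    rw [Homeomorph.symm_apply_eq, h]
  by_cases hAA : A * A = 1
  · obtain ⟨x, hx⟩ : ∃ x, A x ≠ x := by
      by_contra hc
      push Not at hc
      exact h1 (Homeomorph.ext hc)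
    obtain ⟨r, hr⟩ : ∃ r : X, r ∉ ({x, A x} : Set X) := by
      have : Infinite X := Infinite.of_injective ((↑) : ℂ → X) OnePoint.coe_injective
      exact (Set.toFinite ({x, A x} : Set X)).exists_notMem
    simp only [mem_insert_iff, mem_singleton_iff, not_or] at hr
    obtain ⟨C, hC, c1, c2, c3⟩ := move3 (Ne.symm hx) (Ne.symm hr.1) (Ne.symm hr.2)
    obtain ⟨A', hA'⟩ : ∃ A', A' = C * A * C⁻¹ := ⟨_, rfl⟩
    have hCx : C⁻¹ o = x := by
      rw [← c1]
      exact C.symm_apply_apply x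
    have hA'o : A' o = ((1 : ℂ) : X) := by
      rw [hA']
      change C (A (C⁻¹ o)) = _
      rw [hCx, c2]
    have hA'G : LSx A' := by
      apply LSx_of_mem
      rw [hA']
      exact mul_mem (mul_mem hC hA) (inv_mem hC)
    obtain ⟨a, ha⟩ : ∃ a, a = aff (-1) 1 (by norm_num) := ⟨_, rfl⟩
    have haz : ∀ z, a z = 1 + ((-1 : ℝ) : ℂ) * z := by
      intro z
      rw [ha, aff_apply]
      push_cast
      ring
    obtain ⟨W, hW, hW'⟩ := coe_nhds_compl (s := 1) (t := 0) one_ne_zero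
    obtain ⟨L, hL1, hL2⟩ := prescribe hA'G hA'o (a := a) (by rw [ha]; exact Iso.aff _ _ _)
      (by rw [haz, mul_zero, add_zero]) hW
    have hev0 : ∀ᶠ z in 𝓝 o, (L * A' * L⁻¹) z = io a z := by
      filter_upwards [hL2, hW'] with z hz1 hz2
      change L (A' (L⁻¹ z)) = _
      rw [hinv L z (hL1 z hz2), hz1]
    have hsq : ∀ z, (L * A' * L⁻¹) ((L * A' * L⁻¹) z) = z := by
      intro z
      have : (L * A' * L⁻¹) * (L * A' * L⁻¹) = 1 := by
        rw [hA']
        calc L * (C * A * C⁻¹) * L⁻¹ * (L * (C * A * C⁻¹) * L⁻¹) = L * C * (A * A) * C⁻¹ * L⁻¹ := by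
              group
          _ = 1 := by rw [hAA]; group
      exact congrArg (fun T : X ≃ₜ X => T z) this
    have hev1 : ∀ᶠ z in 𝓝 ((-((-1 : ℝ) : ℂ) : ℂ) : X), (L * A' * L⁻¹) z = io a z := by
      have e : (-((-1 : ℝ) : ℂ) : ℂ) = 1 := by push_cast; ring
      rw [e]
      have h2 : io a ((1 : ℂ) : X) = o := by
        rw [io_coe, haz]
        congr 1
        push_cast
        ring
      have h3 : Tendsto (io a) (𝓝 ((1 : ℂ) : X)) (𝓝 o) := by
        have := (io a).continuous.tendsto ((1 : ℂ) : X)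
        rwa [h2] at this
      filter_upwards [h3.eventually hev0] with z hz
      have h4 : io a (io a z) = z := by
        induction z using OnePoint.rec with
        | infty => rfl
        | coe w =>
          rw [io_coe, io_coe, haz, haz]
          congr 1
          push_cast
          ring
      rw [h4] at hz
      have h5 := hsq (io a z)
      rw [hz] at h5
      exact h5
    obtain ⟨δ, hδ, hnf⟩ := nf_of_ev haz hev0 hev1
    refine ⟨L * C, -1, δ, Or.inr rfl, hδ, ?_⟩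
    have e : L * C * A * (L * C)⁻¹ = L * A' * L⁻¹ := by
      rw [hA']
      group
    rwa [e]
  · obtain ⟨x, hx⟩ : ∃ x, A (A x) ≠ x := by
      by_contra hc
      push Not at hc
      exact hAA (Homeomorph.ext hc)
    have hxy : x ≠ A x := by
      intro h
      rw [← h] at hx
      exact hx h.symm
    have hAi : ∀ y, A (A⁻¹ y) = y := fun y => A.apply_symm_apply y
    have hxw : x ≠ A⁻¹ x := by
      intro h
      have := hAi x
      rw [← h] at this
      exact hxy this.symm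
    have hyw : A x ≠ A⁻¹ x := by
      intro h
      have := hAi x
      rw [← h] at this
      exact hx this
    obtain ⟨C, hC, c1, c2, c3⟩ := move3 hxy hxw hyw
    obtain ⟨A', hA'⟩ : ∃ A', A' = C * A * C⁻¹ := ⟨_, rfl⟩
    have hCi : ∀ y, C⁻¹ (C y) = y := fun y => C.symm_apply_apply y
    have hA'o : A' o = ((1 : ℂ) : X) := by
      rw [hA']
      change C (A (C⁻¹ o)) = _
      rw [← c1, hCi, c2]
    have hA'm : A' ((-1 : ℂ) : X) = ((0 : ℂ) : X) := by
      rw [hA']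
      change C (A (C⁻¹ ((-1 : ℂ) : X))) = _
      rw [← c3, hCi, hAi, c1]
    have hA'G : LSx A' := by
      apply LSx_of_mem
      rw [hA']
      exact mul_mem (mul_mem hC hA) (inv_mem hC)
    obtain ⟨a, ha⟩ : ∃ a, a = aff 1 1 one_ne_zero := ⟨_, rfl⟩
    have haz : ∀ z, a z = 1 + ((1 : ℝ) : ℂ) * z := by
      intro z
      rw [ha, aff_apply]
      push_cast
      ring
    have haI : Iso a := by rw [ha]; exact Iso.aff _ _ _
    -- the first modification, near `1`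
    obtain ⟨W, hW, hW0⟩ := coe_nhds_compl (s := 1) (t := 0) one_ne_zero
    obtain ⟨V, hV, hV0⟩ := coe_nhds_compl (s := 1) (t := -1) (by norm_num)
    obtain ⟨L, hL1, hL2⟩ := prescribe hA'G hA'o haI (by rw [haz, mul_zero, add_zero])
      (inter_mem hW hV)
    have hL0 : ∀ᶠ z in 𝓝 o, L z = z := by
      filter_upwards [hW0] with z hz
      exact hL1 z fun h => hz h.1
    have hLm : ∀ᶠ z in 𝓝 ((-1 : ℂ) : X), L z = z := by
      filter_upwards [hV0] with z hz
      exact hL1 z fun h => hz h.2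
    obtain ⟨A1, hA1⟩ : ∃ A1, A1 = L * A' * L⁻¹ := ⟨_, rfl⟩
    have hA1z : ∀ z, A1 z = L (A' (L⁻¹ z)) := by
      intro z
      rw [hA1]
      rfl
    have hA1o : ∀ᶠ z in 𝓝 o, A1 z = io a z := by
      filter_upwards [hL2, hL0] with z hz1 hz2
      rw [hA1z, hinv L z hz2, hz1]
    have hA1m : ∀ᶠ z in 𝓝 ((-1 : ℂ) : X), A1 z = A' z := by
      have h3 : Tendsto A' (𝓝 ((-1 : ℂ) : X)) (𝓝 o) := by
        have := A'.continuous.tendsto ((-1 : ℂ) : X)
        rwa [hA'm] at this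
      filter_upwards [hLm, h3.eventually hL0] with z hz1 hz2
      rw [hA1z, hinv L z hz1, hz2]
    have hA1m' : A1 ((-1 : ℂ) : X) = o := by rw [hA1m.self_of_nhds, hA'm]
    have hA1o' : A1 o = ((1 : ℂ) : X) := by
      rw [hA1o.self_of_nhds, io_coe, haz, mul_zero, add_zero]
    -- the second modification
    obtain ⟨U, hU, hU1, hU2⟩ : ∃ U : Set X, U ∈ 𝓝 o ∧ Uᶜ ∈ 𝓝 ((1 : ℂ) : X) ∧
        Uᶜ ∈ 𝓝 (A1 ((1 : ℂ) : X)) := by
      have sep : ∀ y : X, o ≠ y → ∃ U : Set X, U ∈ 𝓝 o ∧ Uᶜ ∈ 𝓝 y := by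
        intro y hy
        obtain ⟨u, v, hu, hv, hsu, htv, huv⟩ := t2_separation hy
        exact ⟨u, hu.mem_nhds hsu, mem_of_superset (hv.mem_nhds htv)
          (fun x hx hxu => Set.disjoint_left.1 huv hxu hx)⟩
      obtain ⟨U1, h3, h4⟩ := sep ((1 : ℂ) : X) (fun h => zero_ne_one (OnePoint.coe_injective h))
      obtain ⟨U2, h5, h6⟩ := sep (A1 ((1 : ℂ) : X)) (by
        intro h
        rw [← hA1m'] at h
        have := OnePoint.coe_injective (A1.injective h)
        norm_num at this)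
      refine ⟨U1 ∩ U2, inter_mem h3 h5, mem_of_superset h4 ?_, mem_of_superset h6 ?_⟩
      · exact compl_subset_compl.2 inter_subset_left
      · exact compl_subset_compl.2 inter_subset_right
    obtain ⟨K, hK1, hK2⟩ := prescribe hA'G hA'm haI (by rw [haz]; push_cast; ring) hU
    obtain ⟨N, hN⟩ : ∃ N, N = A1⁻¹ * K * A1 := ⟨_, rfl⟩
    have hA1i : ∀ y, A1⁻¹ (A1 y) = y := fun y => A1.symm_apply_apply y
    have hA1i' : ∀ y, A1 (A1⁻¹ y) = y := fun y => A1.apply_symm_apply y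
    have hNz : ∀ z, N z = A1⁻¹ (K (A1 z)) := by
      intro z
      rw [hN]
      rfl
    have hNfix : ∀ t : ℂ, Uᶜ ∈ 𝓝 (A1 (t : X)) → ∀ᶠ z in 𝓝 (t : X), N z = z := by
      intro t ht
      filter_upwards [A1.continuous.continuousAt ht] with z hz
      rw [hNz, hK1 _ hz, hA1i]
    have hNo : ∀ᶠ z in 𝓝 o, N z = z := hNfix 0 (by rw [hA1o']; exact hU1)
    have hN1 : ∀ᶠ z in 𝓝 ((1 : ℂ) : X), N z = z := hNfix 1 hU2
    have hA2o : ∀ᶠ z in 𝓝 o, (N⁻¹ * A1 * N) z = io a z := by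
      have h3 : Tendsto (io a) (𝓝 o) (𝓝 ((1 : ℂ) : X)) := by
        have h4 : io a o = ((1 : ℂ) : X) := by rw [io_coe, haz, mul_zero, add_zero]
        have := (io a).continuous.tendsto o
        rwa [h4] at this
      filter_upwards [hNo, hA1o, h3.eventually hN1] with z hz1 hz2 hz3
      change N⁻¹ (A1 (N z)) = _
      rw [hz1, hz2, hinv N _ hz3]
    have hA2m : ∀ᶠ z in 𝓝 ((-((1 : ℝ) : ℂ) : ℂ) : X), (N⁻¹ * A1 * N) z = io a z := by
      have e : (-((1 : ℝ) : ℂ) : ℂ) = -1 := by push_cast; ring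
      rw [e]
      have h3 : Tendsto (io a) (𝓝 ((-1 : ℂ) : X)) (𝓝 o) := by
        have h4 : io a ((-1 : ℂ) : X) = o := by
          rw [io_coe, haz]
          congr 1
          push_cast
          ring
        have := (io a).continuous.tendsto ((-1 : ℂ) : X)
        rwa [h4] at this
      filter_upwards [hK2, hA1m, h3.eventually hNo] with z hz1 hz2 hz3
      change N⁻¹ (A1 (N z)) = _
      rw [hNz, hA1i', hz2, hz1, hinv N _ hz3]
    obtain ⟨δ, hδ, hnf⟩ := nf_of_ev haz hA2o hA2m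
    refine ⟨N⁻¹ * L * C, 1, δ, Or.inl rfl, hδ, ?_⟩
    have e : N⁻¹ * L * C * A * (N⁻¹ * L * C)⁻¹ = N⁻¹ * A1 * N := by
      rw [hA1, hA']
      group
    rwa [e]

end Pool.Agent.D0H72.SC
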