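import Pool.Agent.D0H72.SC.Near
import Pool.Agent.SphConj823.Defs

/-! Every element is a product of three conjugates -/

set_option autoImplicit false

open Set Filter Topology Metric Function
open scoped OnePoint

noncomputable section

namespace Pool.Agent.D0H72.SC

theorem Nf.mono {A : X ≃ₜ X} {ε δ δ' : ℝ} (h : Nf A ε δ) (hd : δ' ≤ δ) : Nf A ε δ' := by
  intro z hz
  apply h
  rcases hz with h | h
  · exact Or.inl (h.trans hd)
  · exact Or.inr (h.trans hd)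

theorem three {A B : X ≃ₜ X} (hA : A ∈ Gr) (hB : B ∈ Gr) (hA1 : A ≠ 1) (hB1 : B ≠ 1) :
    ∃ H1 H2 H3 : X ≃ₜ X, B = (H1 * A * H1⁻¹) * (H2 * A * H2⁻¹) * (H3 * A * H3⁻¹) := by
  obtain ⟨D1, ε1, δ1, h1, h1', n1⟩ := normal_form hA hA1
  obtain ⟨D2, ε2, δ2, h2, h2', n2⟩ := normal_form (inv_mem hA) (fun h => hA1 (inv_eq_one.1 h))
  obtain ⟨D3, ε3, δ3, h3, h3', n3⟩ := normal_form hB hB1
  obtain ⟨m1, g1, k1⟩ := key n1 n1 h1 h1 h1'
  obtain ⟨m2, g2, k2⟩ := key (n2.mono (min_le_left δ2 δ3)) (n3.mono (min_le_right δ2 δ3)) h2 h3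
    (lt_min h2' h3')
  rw [← k1] at k2
  obtain ⟨k, hk⟩ : ∃ k, k = g2⁻¹ * g1 := ⟨_, rfl⟩
  have e1 : m2 * (D2 * A⁻¹ * D2⁻¹) * m2⁻¹ * (D3 * B * D3⁻¹) =
      k * (m1 * (D1 * A * D1⁻¹) * m1⁻¹ * (D1 * A * D1⁻¹)) * k⁻¹ := by
    rw [hk]
    calc m2 * (D2 * A⁻¹ * D2⁻¹) * m2⁻¹ * (D3 * B * D3⁻¹) =
        g2⁻¹ * (g2 * (m2 * (D2 * A⁻¹ * D2⁻¹) * m2⁻¹ * (D3 * B * D3⁻¹)) * g2⁻¹) * g2 := by group
      _ = g2⁻¹ * (g1 * (m1 * (D1 * A * D1⁻¹) * m1⁻¹ * (D1 * A * D1⁻¹)) * g1⁻¹) * g2 := by rw [k2]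
      _ = _ := by group
  refine ⟨D3⁻¹ * m2 * D2, D3⁻¹ * k * m1 * D1, D3⁻¹ * k * D1, ?_⟩
  calc B = D3⁻¹ * (m2 * (D2 * A⁻¹ * D2⁻¹) * m2⁻¹)⁻¹ *
        (m2 * (D2 * A⁻¹ * D2⁻¹) * m2⁻¹ * (D3 * B * D3⁻¹)) * D3 := by group
    _ = D3⁻¹ * (m2 * (D2 * A⁻¹ * D2⁻¹) * m2⁻¹)⁻¹ *
        (k * (m1 * (D1 * A * D1⁻¹) * m1⁻¹ * (D1 * A * D1⁻¹)) * k⁻¹) * D3 := by rw [e1]
    _ = _ := by group

open SphereHomeo823

/-- the sphere is the one point compactification of the plane -/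
def eS : S ≃ₜ X :=
  (onePointEquivSphereOfFinrankEq (ι := Fin 3) (V := ℂ)
    (by rw [Complex.finrank_real_complex, Fintype.card_fin])).symm

/-- transfer to the one point compactification -/
def up (g : Homeo) : X ≃ₜ X := eS.symm.trans (Homeomorph.trans g eS)

/-- transfer to the sphere -/
def down (g : X ≃ₜ X) : Homeo := eS.trans (g.trans eS.symm)

theorem up_apply (g : Homeo) (x : X) : up g x = eS (Homeomorph.toEquiv g (eS.symm x)) := rfl

theorem down_up (g : Homeo) : down (up g) = g := by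
  apply Homeomorph.ext
  intro x
  change eS.symm (eS (Homeomorph.toEquiv g (eS.symm (eS x)))) = Homeomorph.toEquiv g x
  rw [eS.symm_apply_apply, eS.symm_apply_apply]

theorem up_down (g : X ≃ₜ X) : up (down g) = g := by
  ext x
  change eS (eS.symm (g (eS (eS.symm x)))) = g x
  rw [eS.apply_symm_apply, eS.apply_symm_apply]

theorem down_mul (g h : X ≃ₜ X) : down (g * h) = down g * down h := by
  apply Homeomorph.ext
  intro x
  change eS.symm (g (h (eS x))) = eS.symm (g (eS (eS.symm (h (eS x)))))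
  rw [eS.apply_symm_apply]

theorem down_inv (g : X ≃ₜ X) : down g⁻¹ = (down g)⁻¹ := by
  rw [eq_inv_iff_mul_eq_one, ← down_mul, inv_mul_cancel]
  apply Homeomorph.ext
  intro x
  change eS.symm (eS x) = x
  rw [eS.symm_apply_apply]

theorem up_mem {A : Homeo} (hA : A ∈ G) : up A ∈ Gr := by
  apply mem_of_path
  obtain ⟨γ, hγ⟩ := hA
  have hc : Continuous fun φ : C(S, S) =>
      ((⟨eS, eS.continuous⟩ : C(S, X)).comp φ).comp (⟨eS.symm, eS.symm.continuous⟩ : C(X, S)) :=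
    (ContinuousMap.continuous_precomp _).comp (ContinuousMap.continuous_postcomp _)
  refine ⟨(γ.map hc).cast ?_ ?_, fun t => ?_⟩
  · ext x
    change x = eS (eS.symm x)
    rw [eS.apply_symm_apply]
  · ext x
    rfl
  · obtain ⟨h, hh⟩ := hγ t
    refine ⟨up h, ?_⟩
    ext x
    change eS (Homeomorph.toEquiv h (eS.symm x)) = eS (γ t (eS.symm x))
    rw [← hh]
    rfl

theorem up_ne {A : Homeo} (hA : A ≠ 1) : up A ≠ 1 := by
  intro h
  apply hA
  rw [← down_up A, h]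
  apply Homeomorph.ext
  intro x
  change eS.symm (eS x) = x
  rw [eS.symm_apply_apply]

theorem P_three : P 3 := by
  intro A B hA hB hA1 hB1
  obtain ⟨H1, H2, H3, h⟩ := three (up_mem hA) (up_mem hB) (up_ne hA1) (up_ne hB1)
  refine ⟨![down H1, down H2, down H3], ?_⟩
  have h2 := congrArg down h
  rw [down_up, down_mul, down_mul, down_mul, down_mul, down_mul, down_mul, down_mul, down_mul,
    down_inv, down_inv, down_inv, down_up] at h2
  simp only [conj, List.ofFn_succ, List.ofFn_zero, List.prod_cons, List.prod_nil, mul_one]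
  rw [h2]
  simp only [Matrix.cons_val_zero, Matrix.cons_val_succ, Matrix.cons_val_one, Fin.succ_zero_eq_one]
  group

end Pool.Agent.D0H72.SC
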